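import Pool.Agent.Lib.MP_8ae0c1_agH.Tr

/-!
# Evaluation at constant points and derivations
-/

set_option autoImplicit false
set_option linter.unusedSectionVars false

namespace Pool.Agent.Lib.MP_8ae0c1_agH

open Pool.Agent.Lib.MP_8ae0c1_ag EllFF Filter

variable {S : Type} {U : Ultrafilter S} {F : Type} [Field F] [IsAlgClosed F] [CharZero F]
  {l : F} [Leg l]

/-- The functions for which the derivation is defined on the coordinate ring and commutes with the
evaluation at constant points. -/
def GoodD (D : Derivation ℤ (UPow U F) (UPow U F)) (r : R (cst U F l)) : Prop :=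
  ∃ r' : R (cst U F l), algebraMap (R (cst U F l)) (K (cst U F l)) r' =
      dext D (algebraMap (R (cst U F l)) (K (cst U F l)) r) ∧
    ∀ P : Pt l, ev (cst U F l) (clsPt U fun _ => P) r' =
      D (ev (cst U F l) (clsPt U fun _ => P) r)

theorem GoodD.add {D : Derivation ℤ (UPow U F) (UPow U F)} {r t : R (cst U F l)}
    (h : GoodD D r) (h' : GoodD D t) : GoodD D (r + t) := by
  obtain ⟨r', h1, h2⟩ := h
  obtain ⟨t', h3, h4⟩ := h'
  refine ⟨r' + t', ?_, fun P => ?_⟩
  · rw [map_add, map_add, map_add, h1, h3]
  · rw [map_add, map_add, map_add, h2, h4]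

theorem GoodD.mul {D : Derivation ℤ (UPow U F) (UPow U F)} {r t : R (cst U F l)}
    (h : GoodD D r) (h' : GoodD D t) : GoodD D (r * t) := by
  obtain ⟨r', h1, h2⟩ := h
  obtain ⟨t', h3, h4⟩ := h'
  refine ⟨r * t' + t * r', ?_, fun P => ?_⟩
  · rw [map_add, map_mul, map_mul, map_mul, Derivation.leibniz, h1, h3]
    rfl
  · rw [map_add, map_mul, map_mul, map_mul, Derivation.leibniz, h2, h4]
    rfl

theorem goodD_const {D : Derivation ℤ (UPow U F) (UPow U F)} (c : UPow U F) :
    GoodD D (algebraMap (UPow U F) (R (cst U F l)) c) := by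
  refine ⟨algebraMap (UPow U F) (R (cst U F l)) (D c), ?_, fun P => ?_⟩
  · rw [← IsScalarTower.algebraMap_apply (UPow U F) (R (cst U F l)) (K (cst U F l)),
      ← IsScalarTower.algebraMap_apply (UPow U F) (R (cst U F l)) (K (cst U F l))]
    exact (dext_const D c).symm
  · rw [ev_algebraMap, ev_algebraMap]

theorem goodD_x {D : Derivation ℤ (UPow U F) (UPow U F)} (hD : ∀ a : F, D (cst U F a) = 0) :
    GoodD D (EllFF.xR (cst U F l)) := by
  refine ⟨0, ?_, fun P => ?_⟩
  · rw [map_zero]
    exact (dext_x D).symm
  · rw [map_zero, ev_evR, evR_x]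
    exact (hD P.1.1).symm

theorem goodD_y {D : Derivation ℤ (UPow U F) (UPow U F)} (hD : ∀ a : F, D (cst U F a) = 0) :
    GoodD D (EllFF.yR (cst U F l)) := by
  refine ⟨0, ?_, fun P => ?_⟩
  · rw [map_zero]
    exact (dext_y' D (hD l)).symm
  · rw [map_zero, ev_evR, evR_y]
    exact (hD P.1.2).symm

theorem goodD_poly {D : Derivation ℤ (UPow U F) (UPow U F)} (hD : ∀ a : F, D (cst U F a) = 0)
    (p : Polynomial (UPow U F)) : GoodD D (Polynomial.aeval (EllFF.xR (cst U F l)) p) := by
  induction p using Polynomial.induction_on' with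
  | add p q hp hq =>
    rw [map_add]
    exact hp.add hq
  | monomial n a =>
    rw [Polynomial.aeval_monomial]
    refine (goodD_const a).mul ?_
    induction n with
    | zero =>
      rw [pow_zero, ← map_one (algebraMap (UPow U F) (R (cst U F l)))]
      exact goodD_const 1
    | succ n ih =>
      rw [pow_succ]
      exact ih.mul (goodD_x hD)

/-- LEAF E. `dext D` acts on the coordinate ring and commutes with the evaluation at constant points
(the class of functions with this property is closed under sums and products and contains the constants,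
`x` and `y`; use `RL_repr`, `dext_x`, `dext_y'`, `dext_const`). -/
theorem ev_dext (D : Derivation ℤ (UPow U F) (UPow U F)) (hD : ∀ a : F, D (cst U F a) = 0)
    (r : R (cst U F l)) : ∃ r' : R (cst U F l),
      algebraMap (R (cst U F l)) (K (cst U F l)) r' =
        dext D (algebraMap (R (cst U F l)) (K (cst U F l)) r) ∧
      ∀ P : Pt l, ev (cst U F l) (clsPt U fun _ => P) r' =
        D (ev (cst U F l) (clsPt U fun _ => P) r) := by
  obtain ⟨p, q, rfl⟩ := RL_repr r
  exact (goodD_poly hD p).add ((goodD_poly hD q).mul (goodD_y hD))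

/-- Consequence: if `dext D` kills the quotient `v_i / v_j` then `D` kills the quotient of the values. -/
theorem der_quot (D : Derivation ℤ (UPow U F) (UPow U F)) (hD : ∀ a : F, D (cst U F a) = 0)
    (r t : R (cst U F l)) (P : Pt l) (ht : ev (cst U F l) (clsPt U fun _ => P) t ≠ 0)
    (h : dext D (algebraMap (R (cst U F l)) (K (cst U F l)) r /
      algebraMap (R (cst U F l)) (K (cst U F l)) t) = 0) :
    D (ev (cst U F l) (clsPt U fun _ => P) r / ev (cst U F l) (clsPt U fun _ => P) t) = 0 := by
  obtain ⟨r', h1, h2⟩ := ev_dext D hD r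
  obtain ⟨t', h3, h4⟩ := ev_dext D hD t
  have ht0 : algebraMap (R (cst U F l)) (K (cst U F l)) t ≠ 0 := by
    rw [Ne, map_eq_zero_iff _ (IsFractionRing.injective (R (cst U F l)) (K (cst U F l)))]
    intro h0
    rw [h0, map_zero] at ht
    exact ht rfl
  have h5 : t * r' = r * t' := by
    apply IsFractionRing.injective (R (cst U F l)) (K (cst U F l))
    rw [map_mul, map_mul, h1, h3]
    have h6 : dext D (algebraMap (R (cst U F l)) (K (cst U F l)) r) =
        dext D (algebraMap (R (cst U F l)) (K (cst U F l)) r /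
          algebraMap (R (cst U F l)) (K (cst U F l)) t *
          algebraMap (R (cst U F l)) (K (cst U F l)) t) := by
      rw [div_mul_cancel₀ _ ht0]
    rw [h6, Derivation.leibniz, h, smul_zero, add_zero, smul_eq_mul]
    rw [← mul_assoc, mul_div_cancel₀ _ ht0]
  have h7 := congrArg (ev (cst U F l) (clsPt U fun _ => P)) h5
  rw [map_mul, map_mul, h2, h4] at h7
  set x := ev (cst U F l) (clsPt U fun _ => P) r with hx
  set y := ev (cst U F l) (clsPt U fun _ => P) t with hy
  have h8 : D x = D (x / y * y) := by rw [div_mul_cancel₀ _ ht]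
  rw [Derivation.leibniz, smul_eq_mul, smul_eq_mul] at h8
  rw [h8] at h7
  have h9 : y * y * D (x / y) = 0 := by
    have h10 : y * (x / y * D y) = x * D y := by
      rw [← mul_assoc, mul_div_cancel₀ _ ht]
    linear_combination h7 - h10
  exact (mul_eq_zero.1 h9).resolve_left (mul_ne_zero ht ht)

end Pool.Agent.Lib.MP_8ae0c1_agH
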