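import Pool.Agent.Lib.MP_8ae0c1_agH.TrLift

/-!
# Sections over the ultrapower
-/

set_option autoImplicit false
set_option linter.unusedSectionVars false

namespace Pool.Agent.Lib.MP_8ae0c1_agH

open Pool.Agent.Lib.MP_8ae0c1_ag EllFF Filter

section

variable {F : Type} [Field F] [IsAlgClosed F] [CharZero F] {l : F} [Leg l]

theorem cross_of_isRep {s : Sec l} {V v : Fin 3 → R l} {W u : R l} (h : IsRep l s V W)
    (h' : IsRep l s v u) :
    (∀ i j, V i * v j = V j * v i) ∧ ∀ j, W * v j ^ 2 = u * V j ^ 2 := by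
  obtain ⟨p, hp, hv, hu⟩ := h
  obtain ⟨p', hp', hv', hu'⟩ := h'
  obtain ⟨g, hg, e1, e2⟩ : Sol.Rel l p p' := Quotient.exact (hp.trans hp'.symm)
  have hinj : Function.Injective (algebraMap (R l) (K l)) := IsFractionRing.injective _ _
  have hgv (m : Fin 3) : algebraMap (R l) (K l) (v m) = g * algebraMap (R l) (K l) (V m) := by
    have := congrFun e1 m
    rw [hv', hv] at this
    exact this
  have hgu : algebraMap (R l) (K l) u = g ^ 2 * algebraMap (R l) (K l) W := by
    rw [← hu', ← hu, e2]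
    ring
  refine ⟨fun i j => hinj ?_, fun j => hinj ?_⟩
  · rw [map_mul, map_mul, hgv, hgv]
    ring
  · rw [map_mul, map_mul, map_pow, map_pow, hgu, hgv]
    ring

theorem isRep_of_cross {s : Sec l} {V v : Fin 3 → R l} {W u : R l} (h : IsRep l s V W)
    (hv : ∃ i, v i ≠ 0) (h1 : ∀ i j, V i * v j = V j * v i) (h2 : ∀ j, W * v j ^ 2 = u * V j ^ 2) :
    IsRep l s v u := by
  have hinj : Function.Injective (algebraMap (R l) (K l)) := IsFractionRing.injective _ _
  obtain ⟨j, hj⟩ := Function.ne_iff.1 (toK_ne h)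
  have hj' : algebraMap (R l) (K l) (V j) ≠ 0 := hj
  have hVj : V j ≠ 0 := fun h0 => hj' (by rw [h0, map_zero])
  have hvj : v j ≠ 0 := by
    intro h0
    obtain ⟨i, hi⟩ := hv
    have h3 := h1 i j
    rw [h0, mul_zero] at h3
    exact (mul_ne_zero hVj hi) h3.symm
  have hvj' : algebraMap (R l) (K l) (v j) ≠ 0 := (map_ne_zero_iff _ hinj).2 hvj
  refine isRep_smulK h (g := algebraMap (R l) (K l) (v j) / algebraMap (R l) (K l) (V j))
    (div_ne_zero hvj' hj') (fun i => ?_) ?_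
  · have h3 := congrArg (algebraMap (R l) (K l)) (h1 i j)
    rw [map_mul, map_mul] at h3
    rw [div_mul_eq_mul_div, eq_div_iff hj']
    linear_combination -h3
  · have h3 := congrArg (algebraMap (R l) (K l)) (h2 j)
    rw [map_mul, map_mul, map_pow, map_pow] at h3
    rw [div_pow, div_mul_eq_mul_div, eq_div_iff (pow_ne_zero 2 hj')]
    linear_combination -h3

theorem ratio_of_isRep {p : Sol l} {v : Fin 3 → R l} {u : R l}
    (h : IsRep l (⟦p⟧ : Quotient (Sol.setoid l)) v u) :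
    (∀ j, p.1.1 j ≠ 0 ↔ algebraMap (R l) (K l) (v j) ≠ 0) ∧
      ∀ i j, p.1.1 i / p.1.1 j = algebraMap (R l) (K l) (v i) / algebraMap (R l) (K l) (v j) := by
  obtain ⟨q, hq, hv, -⟩ := h
  obtain ⟨g, hg, e1, -⟩ : Sol.Rel l p q := Quotient.exact hq.symm
  have hgv (m : Fin 3) : algebraMap (R l) (K l) (v m) = g * p.1.1 m := by
    have := congrFun e1 m
    rw [hv] at this
    exact this
  refine ⟨fun j => ?_, fun i j => ?_⟩
  · rw [hgv]
    exact ⟨fun h => mul_ne_zero hg h, fun h => right_ne_zero_of_mul h⟩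
  · rw [hgv, hgv, mul_div_mul_left _ _ hg]

theorem exists_sol {v : Fin 3 → R l} {u : R l} (hv : ∃ i, v i ≠ 0)
    (h : u ^ 2 = EllFF.xR l * quart v) : ∃ s : Sec l, IsRep l s v u := by
  have hinj : Function.Injective (algebraMap (R l) (K l)) := IsFractionRing.injective _ _
  have hx : xK l ≠ 0 := xK_ne_zero
  refine ⟨(⟦⟨(toK v, algebraMap (R l) (K l) u / xK l), ?_, ?_⟩⟧ : Quotient (Sol.setoid l)),
    ⟨_, rfl, rfl, ?_⟩⟩
  · obtain ⟨i, hi⟩ := hv
    exact Function.ne_iff.2 ⟨i, (map_ne_zero_iff _ hinj).2 hi⟩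
  · show xK l * (algebraMap (R l) (K l) u / xK l) ^ 2 = quart (toK v)
    have h1 := congrArg (algebraMap (R l) (K l)) h
    have h2 : algebraMap (R l) (K l) (quart v) = quart (toK v) := by
      simp only [quart, map_add, map_pow, toK]
    rw [map_pow, map_mul, h2] at h1
    have h3 : algebraMap (R l) (K l) (EllFF.xR l) = xK l := rfl
    rw [h3] at h1
    rw [div_pow, h1]
    field_simp
  · show xK l * (algebraMap (R l) (K l) u / xK l) = algebraMap (R l) (K l) u
    exact mul_div_cancel₀ _ hx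

theorem rep_sqR {s : Sec l} {v : Fin 3 → R l} {u : R l} (h : IsRep l s v u) :
    u ^ 2 = EllFF.xR l * quart v := by
  apply IsFractionRing.injective (R l) (K l)
  have h2 : algebraMap (R l) (K l) (quart v) = quart (toK v) := by
    simp only [quart, map_add, map_pow, toK]
  rw [map_pow, map_mul, h2, rep_sq h]
  rfl

theorem isRep_ne {s : Sec l} {v : Fin 3 → R l} {u : R l} (h : IsRep l s v u) : ∃ i, v i ≠ 0 := by
  obtain ⟨j, hj⟩ := Function.ne_iff.1 (toK_ne h)
  have hj' : algebraMap (R l) (K l) (v j) ≠ 0 := hj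
  exact ⟨j, fun h0 => hj' (by rw [h0, map_zero])⟩

end

variable {S : Type} {U : Ultrafilter S} {F : Type} [Field F] [IsAlgClosed F] [CharZero F]
  {l : F} [Leg l]

theorem Tr.pole_le {f : S → R l} {r : R (cst U F l)} (h : Tr U f r) {N : ℕ}
    (hN : ∀ᶠ s in (U : Filter S), pole l (f s) ≤ N) : pole (cst U F l) r ≤ N := by
  obtain ⟨r', h1, h2⟩ := exists_lift f N hN
  rw [(h.eq_iff h1).2 (Eventually.of_forall fun _ => rfl)]
  exact h2

theorem Tr.quart {f : S → Fin 3 → R l} {r : Fin 3 → R (cst U F l)}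
    (h : ∀ i, Tr U (fun s => f s i) (r i)) :
    Tr U (fun s => MP_8ae0c1_ag.quart (f s)) (MP_8ae0c1_ag.quart r) :=
  (((h 0).pow 4).add ((h 1).pow 4)).add ((h 2).pow 4)

theorem tr_ne {f : S → Fin 3 → R l} {r : Fin 3 → R (cst U F l)}
    (h : ∀ i, Tr U (fun s => f s i) (r i)) :
    (∃ i, r i ≠ 0) ↔ ∀ᶠ s in (U : Filter S), ∃ i, f s i ≠ 0 := by
  constructor
  · rintro ⟨i, hi⟩
    exact ((h i).ne_zero_iff.1 hi).mono fun s hs => ⟨i, hs⟩
  · intro hs
    by_contra hne
    push Not at hne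
    have h1 : ∀ᶠ s in (U : Filter S), ∀ i, f s i = 0 :=
      eventually_all.2 fun i => (h i).zero_iff.1 (hne i)
    obtain ⟨s, ⟨i, hi⟩, h2⟩ := (hs.and h1).exists
    exact hi (h2 i)

/-- `σ'` is the class of the family `σ` of sections. -/
def TrSec (U : Ultrafilter S) (σ : S → Sec l) (σ' : Sec (cst U F l)) : Prop :=
  ∃ (v : S → Fin 3 → R l) (u : S → R l) (v' : Fin 3 → R (cst U F l)) (u' : R (cst U F l)),
    (∀ᶠ s in (U : Filter S), IsRep l (σ s) (v s) (u s)) ∧ IsRep (cst U F l) σ' v' u' ∧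
    (∀ i, Tr U (fun s => v s i) (v' i)) ∧ Tr U u u'

theorem TrSec.up {σ : S → Sec l} {σ' : Sec (cst U F l)} (h : TrSec U σ σ')
    {v : S → Fin 3 → R l} {u : S → R l} {v' : Fin 3 → R (cst U F l)} {u' : R (cst U F l)}
    (hr : ∀ᶠ s in (U : Filter S), IsRep l (σ s) (v s) (u s))
    (hv : ∀ i, Tr U (fun s => v s i) (v' i)) (hu : Tr U u u') : IsRep (cst U F l) σ' v' u' := by
  obtain ⟨V, W, V', W', hR, hR', hV, hW⟩ := h
  have h1 := hR.and hr
  refine isRep_of_cross hR' ((tr_ne hv).2 (hr.mono fun s hs => isRep_ne hs)) (fun i j => ?_)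
    fun j => ?_
  · rw [((hV i).mul (hv j)).eq_iff ((hV j).mul (hv i))]
    exact h1.mono fun s hs => (cross_of_isRep hs.1 hs.2).1 i j
  · rw [(hW.mul ((hv j).pow 2)).eq_iff (hu.mul ((hV j).pow 2))]
    exact h1.mono fun s hs => (cross_of_isRep hs.1 hs.2).2 j

theorem TrSec.down {σ : S → Sec l} {σ' : Sec (cst U F l)} (h : TrSec U σ σ')
    {v : S → Fin 3 → R l} {u : S → R l} {v' : Fin 3 → R (cst U F l)} {u' : R (cst U F l)}
    (hr : IsRep (cst U F l) σ' v' u')
    (hv : ∀ i, Tr U (fun s => v s i) (v' i)) (hu : Tr U u u') :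
    ∀ᶠ s in (U : Filter S), IsRep l (σ s) (v s) (u s) := by
  obtain ⟨V, W, V', W', hR, hR', hV, hW⟩ := h
  have h1 := cross_of_isRep hR' hr
  have h2 : ∀ᶠ s in (U : Filter S), ∀ i j, V s i * v s j = V s j * v s i := by
    refine eventually_all.2 fun i => eventually_all.2 fun j => ?_
    exact (((hV i).mul (hv j)).eq_iff ((hV j).mul (hv i))).1 (h1.1 i j)
  have h3 : ∀ᶠ s in (U : Filter S), ∀ j, W s * v s j ^ 2 = u s * V s j ^ 2 := by
    refine eventually_all.2 fun j => ?_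
    exact ((hW.mul ((hv j).pow 2)).eq_iff (hu.mul ((hV j).pow 2))).1 (h1.2 j)
  have h4 := (tr_ne hv).1 (isRep_ne hr)
  filter_upwards [hR, h2, h3, h4] with s hs1 hs2 hs3 hs4
  exact isRep_of_cross hs1 hs4 hs2 hs3

/-- The class of sections of height `d` is a section of height `d`. -/
theorem exists_trSec (U : Ultrafilter S) (σ : S → Sec l) (d : ℕ) (h : ∀ s, HasHeight l (σ s) d) :
    ∃ σ' : Sec (cst U F l), TrSec U σ σ' ∧ HasHeight (cst U F l) σ' d := by
  choose v u hr hp using fun s => (h s).1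
  have hp1 : ∀ s i, pole l (v s i) ≤ d + 1 := by
    intro s
    rcases hp s with hp | ⟨hp, -⟩
    · exact fun i => (hp i).trans (Nat.le_succ d)
    · exact hp
  choose v' hv' hpv' using fun i => exists_lift (U := U) (fun s => v s i) (d + 1)
    (Eventually.of_forall fun s => hp1 s i)
  obtain ⟨u', hu', -⟩ := exists_lift (U := U) u (2 * (d + 1) + 1)
    (Eventually.of_forall fun s => pole_u (hr s) (hp1 s))
  have hne : ∃ i, v' i ≠ 0 := (tr_ne hv').2 (Eventually.of_forall fun s => isRep_ne (hr s))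
  obtain ⟨σ', hσ'⟩ := exists_sol (u := u') hne (by
    rw [(hu'.pow 2).eq_iff (Tr.x.mul (Tr.quart hv'))]
    exact Eventually.of_forall fun s => rep_sqR (hr s))
  have hT : TrSec U σ σ' := ⟨v, u, v', u', Eventually.of_forall hr, hσ', hv', hu'⟩
  refine ⟨σ', hT, ⟨v', u', hσ', ?_⟩, fun n hn hrep => ?_⟩
  · by_cases hc : ∀ᶠ s in (U : Filter S), ∀ i, pole l (v s i) ≤ d
    · exact Or.inl fun i => (hv' i).pole_le (hc.mono fun s hs => hs i)
    · rw [← Ultrafilter.eventually_not] at hc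
      right
      refine ⟨hpv', ?_⟩
      have h1 : ∀ s, ∃ Q : Pt l, (¬ ∀ i, pole l (v s i) ≤ d) → ∀ i, ev l Q (v s i) = 0 := by
        intro s
        rcases hp s with hp | ⟨-, Q, hQ⟩
        · exact ⟨⟨(0, 0), by ring⟩, fun h => absurd hp h⟩
        · exact ⟨Q, fun _ => hQ⟩
      choose Q hQ using h1
      refine ⟨clsPt U Q, fun i => ?_⟩
      rw [hv' i Q, cls_eq_zero_iff]
      exact hc.mono fun s hs => hQ s hs i
  · obtain ⟨w', t', hr', hp'⟩ := hrep
    obtain ⟨t, ht, -⟩ := exists_unlift t' _ le_rfl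
    rcases hp' with hp' | ⟨hp', Q', hQ'⟩
    · choose w hw hpw using fun i => exists_unlift (w' i) n (hp' i)
      have h1 := hT.down (v := fun s i => w i s) hr' hw ht
      obtain ⟨s, hs⟩ := h1.exists
      exact (h s).2 n hn ⟨_, _, hs, Or.inl fun i => hpw i s⟩
    · choose w hw hpw using fun i => exists_unlift (w' i) (n + 1) (hp' i)
      have h1 := hT.down (v := fun s i => w i s) hr' hw ht
      obtain ⟨Q, rfl⟩ := clsPt_surj U Q'
      have h2 : ∀ᶠ s in (U : Filter S), ∀ i, ev l (Q s) (w i s) = 0 := by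
        refine eventually_all.2 fun i => ?_
        rw [← cls_eq_zero_iff, ← hw i Q]
        exact hQ' i
      obtain ⟨s, hs, hs2⟩ := (h1.and h2).exists
      exact (h s).2 n hn ⟨_, _, hs, Or.inr ⟨fun i => hpw i s, Q s, hs2⟩⟩

end Pool.Agent.Lib.MP_8ae0c1_agH
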