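import Pool.Agent.Lib.MP_8ae0c1_agH.BridgeF
import Pool.Agent.Lib.MP_8ae0c1_agH.Sect
import Pool.Agent.Lib.MP_8ae0c1_agH.EvDer

/-!
# The bridge
-/

set_option autoImplicit false
set_option linter.unusedSectionVars false

namespace Pool.Agent.Lib.MP_8ae0c1_agH

open Pool.Agent.Lib.MP_8ae0c1_ag EllFF Filter

section

variable {F : Type} [Field F] [IsAlgClosed F] [CharZero F] {l : F} [Leg l]

theorem coord_of_rep {s : Sec l} {P : Pt l} (hP : P.1.1 ≠ 0) {v : Fin 3 → R l} {u : R l}
    (h : IsRep l s v u) (hi : ∃ i, ev l P (v i) ≠ 0) :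
    Coord l s P ![ev l P (v 0), ev l P (v 1), ev l P (v 2), ev l P u / P.1.1] :=
  ⟨v, u, h, hi, rfl, rfl, rfl, mul_div_cancel₀ _ hP⟩

/-- Normalised coordinates are quotients of values. -/
theorem coord_norm {s : Sec l} {P : Pt l} (hP : P.1.1 ≠ 0) {v : Fin 3 → R l} {u : R l}
    (h : IsRep l s v u) (hi : ∃ i, ev l P (v i) ≠ 0) {c : Fin 4 → F} (hc : Coord l s P c)
    {j : Fin 3} (hj : c j.castSucc = 1) :
    ev l P (v j) ≠ 0 ∧ ∀ i : Fin 3, c i.castSucc = ev l P (v i) / ev l P (v j) := by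
  obtain ⟨a, ha, h1⟩ := coord_unique hP (coord_of_rep hP h hi) hc
  have h2 : ∀ i : Fin 3, c i.castSucc = a * ev l P (v i) := by
    intro i
    rw [h1]
    fin_cases i
    · show a ^ 1 * _ = _
      rw [pow_one]
      rfl
    · show a ^ 1 * _ = _
      rw [pow_one]
      rfl
    · show a ^ 1 * _ = _
      rw [pow_one]
      rfl
  have h3 : a * ev l P (v j) = 1 := (h2 j).symm.trans hj
  have h4 : ev l P (v j) ≠ 0 := right_ne_zero_of_mul (h3.trans_ne one_ne_zero)
  refine ⟨h4, fun i => ?_⟩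
  rw [h2, eq_div_iff h4]
  linear_combination ev l P (v i) * h3

theorem coord_eqn {s : Sec l} {P : Pt l} (hP : P.1.1 ≠ 0) {c : Fin 4 → F}
    (hc : Coord l s P c) : P.1.1 * c 3 ^ 2 = c 0 ^ 4 + c 1 ^ 4 + c 2 ^ 4 := by
  obtain ⟨v, u, hr, -, h0, h1, h2, h3⟩ := hc
  have h4 := congrArg (ev l P) (rep_sqR hr)
  rw [map_mul, map_pow, ev_evR P (EllFF.xR l), evR_x] at h4
  simp only [quart, map_add, map_pow] at h4
  rw [← h0, ← h1, ← h2, ← h3] at h4
  refine mul_left_cancel₀ hP ?_
  linear_combination h4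

end

section

variable {S : Type} {U : Ultrafilter S} {F : Type} [Field F] [IsAlgClosed F] [CharZero F]
  {l : F} [Leg l]

/-- A derivation of the ultrapower whose extension kills the quotients of the coordinates of the class of
the sections kills the normalised coordinates at a constant point. -/
theorem der_coord {σ : S → Sec l} {d : ℕ} (hσ : ∀ s, HasHeight l (σ s) d) {p : Sol (cst U F l)}
    (hT : TrSec U σ (⟦p⟧ : Quotient (Sol.setoid (cst U F l))))
    (D : Derivation ℤ (UPow U F) (UPow U F)) (hD : ∀ a : F, D (cst U F a) = 0)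
    (hp : ∀ i j : Fin 3, p.1.1 j ≠ 0 → dext D (p.1.1 i / p.1.1 j) = 0)
    (P : Pt0 l) (j : Fin 3) (cc : S → Fin 4 → F)
    (hcc : ∀ᶠ s in (U : Filter S), Coord l (σ s) P.1 (cc s) ∧ cc s j.castSucc = 1) (t : Fin 4) :
    D (cls U F fun s => cc s t) = 0 := by
  choose v u hr hpv hpu hev using fun s => exists_two_reps (hσ s)
  -- one of the two representatives
  obtain ⟨e, he⟩ : ∃ e : Fin 2, ∀ᶠ s in (U : Filter S), ∃ i, ev l P.1 (v s e i) ≠ 0 := by
    by_contra hne
    have h1 : ∀ᶠ s in (U : Filter S), ∀ e : Fin 2, ¬ ∃ i, ev l P.1 (v s e i) ≠ 0 :=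
      eventually_all.2 fun e => Ultrafilter.eventually_not.2 (not_exists.1 hne e)
    obtain ⟨s, hs⟩ := h1.exists
    obtain ⟨e, i, hi⟩ := hev s P.1
    exact hs e ⟨i, hi⟩
  choose v' hv' _ using fun i => exists_lift (U := U) (fun s => v s e i) (d + 2)
    (Eventually.of_forall fun s => hpv s e i)
  obtain ⟨u', hu', -⟩ := exists_lift (U := U) (fun s => u s e) (2 * d + 5)
    (Eventually.of_forall fun s => hpu s e)
  have hr' : IsRep (cst U F l) (⟦p⟧ : Quotient (Sol.setoid (cst U F l))) v' u' :=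
    hT.up (v := fun s i => v s e i) (Eventually.of_forall fun s => hr s e) hv' hu'
  have hval : ∀ i, ev (cst U F l) (clsPt U fun _ => P.1) (v' i) =
      cls U F fun s => ev l P.1 (v s e i) := fun i => hv' i _
  have hmain : ∀ᶠ s in (U : Filter S), ev l P.1 (v s e j) ≠ 0 ∧
      ∀ i : Fin 3, cc s i.castSucc = ev l P.1 (v s e i) / ev l P.1 (v s e j) := by
    filter_upwards [hcc, he] with s hs1 hs2
    exact coord_norm P.2 (hr s e) hs2 hs1.1 hs1.2
  have hj : ev (cst U F l) (clsPt U fun _ => P.1) (v' j) ≠ 0 := by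
    rw [hval, cls_ne_zero_iff]
    exact hmain.mono fun s hs => hs.1
  have h3 : ∀ i : Fin 3, D (cls U F fun s => cc s i.castSucc) = 0 := by
    intro i
    have h4 : (cls U F fun s => cc s i.castSucc) =
        ev (cst U F l) (clsPt U fun _ => P.1) (v' i) /
          ev (cst U F l) (clsPt U fun _ => P.1) (v' j) := by
      rw [eq_div_iff hj, hval, hval, ← map_mul, cls_eq_iff]
      filter_upwards [hmain] with s hs
      rw [Pi.mul_apply, hs.2 i, div_mul_cancel₀ _ hs.1]
    rw [h4]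
    refine der_quot D hD _ _ _ hj ?_
    have h5 := ratio_of_isRep hr'
    rw [← h5.2 i j]
    refine hp i j ((h5.1 j).2 ?_)
    rw [Ne, map_eq_zero_iff _ (IsFractionRing.injective (R (cst U F l)) (K (cst U F l)))]
    intro h0
    rw [h0, map_zero] at hj
    exact hj rfl
  have h4 : cst U F P.1.1.1 * (cls U F fun s => cc s 3) ^ 2 = (cls U F fun s => cc s 0) ^ 4 +
      (cls U F fun s => cc s 1) ^ 4 + (cls U F fun s => cc s 2) ^ 4 := by
    have h5 : cst U F P.1.1.1 = cls U F fun _ => P.1.1.1 := rfl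
    rw [h5, ← map_pow, ← map_pow, ← map_pow, ← map_pow, ← map_mul, ← map_add, ← map_add,
      cls_eq_iff]
    filter_upwards [hcc] with s hs
    exact coord_eqn P.2 hs.1
  have h5 := congrArg D h4
  have h30 : D (cls U F fun s => cc s 0) = 0 := h3 0
  have h31 : D (cls U F fun s => cc s 1) = 0 := h3 1
  have h32 : D (cls U F fun s => cc s 2) = 0 := h3 2
  have h33 : D (cls U F fun s => cc s 3) = 0 := by
    rw [map_add, map_add, Derivation.leibniz, Derivation.leibniz_pow, Derivation.leibniz_pow,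
      Derivation.leibniz_pow, Derivation.leibniz_pow, h30, h31, h32, hD] at h5
    simp only [smul_zero, add_zero, smul_eq_mul, nsmul_eq_mul, mul_zero] at h5
    by_cases hw : (cls U F fun s => cc s 3) = 0
    · rw [hw, map_zero]
    · have hx : cst U F P.1.1.1 ≠ 0 := by
        rw [Ne, map_eq_zero]
        exact P.2
      have h6 := (mul_eq_zero.1 h5).resolve_left hx
      have h7 := (mul_eq_zero.1 h6).resolve_left (by norm_num)
      exact (mul_eq_zero.1 h7).resolve_left (pow_ne_zero _ hw)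
  fin_cases t
  · exact h30
  · exact h31
  · exact h32
  · exact h33

end

/-- BRIDGE (T6): a strict chain of `n + 1` irreducible closed sets of sections gives a section over
an algebraically closed field `Ω` with `n` independent derivations. -/
theorem bridge (l : ℂ) (hl : Transcendental ℚ l) (d n : ℕ) (Z : Fin (n + 1) → Set (SecD l d))
    (hZ : ∀ i, IsIrreducible (Z i)) (hZc : ∀ i, IsClosed (Z i)) (hlt : StrictMono Z) :
    ∃ (Ω : Type) (_ : Field Ω) (_ : IsAlgClosed Ω) (_ : CharZero Ω) (l' : Ω) (_ : Leg l')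
      (p : Sol l') (E : Derivation ℤ Ω Ω) (D : Fin n → Derivation ℤ Ω Ω),
      E l' = 1 ∧ (∀ i, D i l' = 0) ∧ HasHeight l' (⟦p⟧ : Quotient (Sol.setoid l')) d ∧
      ∀ a : Fin n → Ω, (∀ i j : Fin 3, p.1.1 j ≠ 0 →
        dext (∑ k, a k • D k) (p.1.1 i / p.1.1 j) = 0) → a = 0 := by
  have : Leg l := by
    refine ⟨?_, ?_⟩
    · rintro rfl
      exact hl isAlgebraic_zero
    · rintro rfl
      exact hl isAlgebraic_one
  obtain ⟨M, P, j, cc, U, E, D, -, h2, hE, hD, hfin⟩ := bridge_field l hl d n Z hZ hZc hlt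
  obtain ⟨σ', hT, hh⟩ := exists_trSec U (fun s : SecD l d => s.1) d fun s => s.2
  obtain ⟨p, rfl⟩ := Quotient.exists_rep σ'
  refine ⟨UPow U ℂ, inferInstance, inferInstance, inferInstance, cst U ℂ l, inferInstance, p, E,
    D, hE, fun i => hD i l, hh, fun a ha => hfin a fun t => ?_⟩
  have h4 : ∀ b : ℂ, (∑ k, a k • D k) (cst U ℂ b) = 0 := by
    intro b
    rw [der_sum_apply]
    exact Finset.sum_eq_zero fun k _ => by rw [hD, mul_zero]
  exact der_coord (fun s : SecD l d => s.2) hT (∑ k, a k • D k) h4 ha (P t.1) (j t.1)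
    (fun s i => cc s (t.1, i)) (h2.mono fun s hs => hs t.1) t.2

end Pool.Agent.Lib.MP_8ae0c1_agH
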