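import Pool.Agent.Lib.MP_8ae0c1_ag.Mord

/-!
# Coordinates of the value of a section at a point
-/

set_option autoImplicit false

namespace Pool.Agent.Lib.MP_8ae0c1_agH

open Pool.Agent.Lib.MP_8ae0c1_ag

/-- The weights of the coordinates. -/
def wtt : Fin 4 → ℕ := ![1, 1, 1, 2]

section

variable {F : Type} [Field F] {l : F}

theorem ev_algebraMap (P : Pt l) (a : F) : ev l P (algebraMap F (R l) a) = a := by
  have h : algebraMap F (R l) a = AdjoinRoot.of _ (Polynomial.C a) := rfl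
  rw [h, ev, AdjoinRoot.lift_of, Polynomial.coe_evalRingHom, Polynomial.eval_C]

theorem isRep_smul {s : Sec l} {v : Fin 3 → R l} {u : R l} (h : IsRep l s v u) {a : F}
    (ha : a ≠ 0) :
    IsRep l s (fun i => algebraMap F (R l) a * v i) (algebraMap F (R l) a ^ 2 * u) := by
  obtain ⟨p, hp, h1, h2⟩ := h
  have ha' : algebraMap (R l) (K l) (algebraMap F (R l) a) ≠ 0 := by
    rw [← IsScalarTower.algebraMap_apply]
    exact (map_ne_zero _).2 ha
  set g : K l := algebraMap (R l) (K l) (algebraMap F (R l) a) with hg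
  refine ⟨⟨(g • p.1.1, g ^ 2 * p.1.2), ?_, ?_⟩, ?_, ?_, ?_⟩
  · exact smul_ne_zero ha' p.2.1
  · have h3 := p.2.2
    simp only [quart, Pi.smul_apply, smul_eq_mul] at h3 ⊢
    linear_combination g ^ 4 * h3
  · rw [← hp]
    exact Quotient.sound ((Sol.rel_equiv l).symm ⟨g, ha', rfl, rfl⟩)
  · funext i
    simp only [Pi.smul_apply, smul_eq_mul, h1, map_mul, hg]
  · rw [map_mul, map_pow, ← h2]
    change _ * (g ^ 2 * p.1.2) = g ^ 2 * _
    ring

theorem coord_smul {s : Sec l} {P : Pt l} {c : Fin 4 → F} (h : Coord l s P c) {a : F}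
    (ha : a ≠ 0) : Coord l s P fun i => a ^ wtt i * c i := by
  obtain ⟨v, u, hr, ⟨i, hi⟩, h0, h1, h2, h3⟩ := h
  have he (r : R l) : ev l P (algebraMap F (R l) a * r) = a * ev l P r := by
    rw [map_mul, ev_algebraMap]
  refine ⟨_, _, isRep_smul hr ha, ⟨i, ?_⟩, ?_, ?_, ?_, ?_⟩
  · rw [he]
    exact mul_ne_zero ha hi
  · rw [he, ← h0]; simp [wtt]
  · rw [he, ← h1]; simp [wtt]
  · rw [he, ← h2]; simp [wtt]
  · rw [pow_two, mul_assoc, he, he, ← h3]
    simp [wtt]
    ring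

theorem coord_ne {s : Sec l} {P : Pt l} {c : Fin 4 → F} (h : Coord l s P c) :
    ∃ j : Fin 3, c j.castSucc ≠ 0 := by
  obtain ⟨v, u, hr, ⟨i, hi⟩, h0, h1, h2, h3⟩ := h
  refine ⟨i, ?_⟩
  fin_cases i
  · exact h0 ▸ hi
  · exact h1 ▸ hi
  · exact h2 ▸ hi

theorem coord_unique {s : Sec l} {P : Pt l} (hP : P.1.1 ≠ 0) {c c' : Fin 4 → F}
    (h : Coord l s P c) (h' : Coord l s P c') :
    ∃ a : F, a ≠ 0 ∧ ∀ i, c' i = a ^ wtt i * c i := by
  obtain ⟨v, u, ⟨p, hp, hv, hu⟩, ⟨i, hi⟩, h0, h1, h2, h3⟩ := h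
  obtain ⟨v', u', ⟨p', hp', hv', hu'⟩, ⟨i', hi'⟩, h0', h1', h2', h3'⟩ := h'
  obtain ⟨g, hg, e1, e2⟩ : Sol.Rel l p p' := Quotient.exact (hp.trans hp'.symm)
  have hinj : Function.Injective (algebraMap (R l) (K l)) := IsFractionRing.injective _ _
  have hgv (m : Fin 3) : algebraMap (R l) (K l) (v' m) = g * algebraMap (R l) (K l) (v m) := by
    have := congrFun e1 m
    rw [hv', hv] at this
    exact this
  have hgu : algebraMap (R l) (K l) u' = g ^ 2 * algebraMap (R l) (K l) u := by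
    rw [← hu', ← hu, e2]
    ring
  -- cross relations
  have c1 (m : Fin 3) : ev l P (v' m) * ev l P (v i) = ev l P (v m) * ev l P (v' i) := by
    rw [← map_mul, ← map_mul]
    congr 1
    apply hinj
    rw [map_mul, map_mul, hgv, hgv]
    ring
  have c2 : ev l P u' * ev l P (v i) ^ 2 = ev l P u * ev l P (v' i) ^ 2 := by
    rw [← map_pow, ← map_pow, ← map_mul, ← map_mul]
    congr 1
    apply hinj
    rw [map_mul, map_mul, map_pow, map_pow, hgu, hgv]
    ring
  have hne : ev l P (v' i) ≠ 0 := by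
    intro h0
    have h4 := c1 i'
    rw [h0, mul_zero] at h4
    exact (mul_ne_zero hi' hi) h4
  have key (m : Fin 3) : ev l P (v' m) = ev l P (v' i) / ev l P (v i) * ev l P (v m) := by
    rw [div_mul_eq_mul_div, eq_div_iff hi]
    linear_combination c1 m
  have key2 : ev l P u' = (ev l P (v' i) / ev l P (v i)) ^ 2 * ev l P u := by
    rw [div_pow, div_mul_eq_mul_div, eq_div_iff (pow_ne_zero 2 hi)]
    linear_combination c2
  refine ⟨ev l P (v' i) / ev l P (v i), div_ne_zero hne hi, fun m => ?_⟩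
  fin_cases m
  · show c' 0 = _ ^ 1 * c 0
    rw [h0', h0, pow_one, key 0]
  · show c' 1 = _ ^ 1 * c 1
    rw [h1', h1, pow_one, key 1]
  · show c' 2 = _ ^ 1 * c 2
    rw [h2', h2, pow_one, key 2]
  · show c' 3 = _ ^ 2 * c 3
    refine mul_left_cancel₀ hP ?_
    rw [h3', key2, ← h3]
    ring

end

section

open EllFF FractionalIdeal nonZeroDivisors

variable {F : Type} [Field F] [IsAlgClosed F] [CharZero F] {l : F} [Leg l]

/-- A section has regular coordinates without zero at a given point. -/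
theorem exists_rep_at (s : Sec l) (P : Pt l) :
    ∃ (v : Fin 3 → R l) (u : R l), IsRep l s v u ∧ ∃ i, ev l P (v i) ≠ 0 := by
  obtain ⟨p, rfl⟩ := Quotient.exists_rep s
  let I : FractionalIdeal (R l)⁰ (K l) := ∑ i, spanSingleton (R l)⁰ (p.1.1 i)
  let m : Ideal (R l) := RingHom.ker (ev l P)
  have hI : I ≠ 0 := by
    obtain ⟨i, hi⟩ := Function.ne_iff.1 p.2.1
    intro h
    have h1 : spanSingleton (R l)⁰ (p.1.1 i) ≤ I :=
      Finset.single_le_sum (f := fun i => spanSingleton (R l)⁰ (p.1.1 i))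
        (fun _ _ => zero_le _) (Finset.mem_univ i)
    rw [h] at h1
    have h2 : p.1.1 i ∈ (0 : FractionalIdeal (R l)⁰ (K l)) := h1 (mem_spanSingleton_self _ _)
    exact hi ((mem_zero_iff _).1 h2)
  have hII : I * I⁻¹ = 1 := mul_inv_cancel₀ hI
  have hmem (i : Fin 3) : p.1.1 i ∈ I :=
    (Finset.single_le_sum (f := fun i => spanSingleton (R l)⁰ (p.1.1 i))
        (fun _ _ => zero_le _) (Finset.mem_univ i)) (mem_spanSingleton_self _ _)
  have hint (f : K l) (hf : f ∈ I⁻¹) (i : Fin 3) : ∃ r : R l, algebraMap (R l) (K l) r =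
      f * p.1.1 i := by
    have h1 : p.1.1 i * f ∈ I * I⁻¹ := mul_mem_mul (hmem i) hf
    rw [hII] at h1
    obtain ⟨r, hr⟩ := (mem_one_iff _).1 h1
    exact ⟨r, by rw [hr, mul_comm]⟩
  obtain ⟨f, hf, i, hi⟩ : ∃ f ∈ I⁻¹, ∃ i, ∀ r : R l, algebraMap (R l) (K l) r = f * p.1.1 i →
      ev l P r ≠ 0 := by
    by_contra hcon
    push Not at hcon
    have h1 : I * I⁻¹ ≤ (m : FractionalIdeal (R l)⁰ (K l)) := by
      change (∑ i, spanSingleton (R l)⁰ (p.1.1 i)) * I⁻¹ ≤ _
      rw [Finset.sum_mul]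
      refine Finset.sum_induction _ (fun J => J ≤ (m : FractionalIdeal (R l)⁰ (K l)))
        (fun a b ha hb => sup_le ha hb) (zero_le _) fun i _ => ?_
      rw [mul_le]
      intro a ha f hf
      obtain ⟨r, rfl⟩ := (mem_spanSingleton _).1 ha
      obtain ⟨b, hb, hb'⟩ := hcon f hf i
      have h2 : r • p.1.1 i * f = algebraMap (R l) (K l) (r * b) := by
        rw [map_mul, hb, Algebra.smul_def]
        ring
      rw [h2]
      exact mem_coeIdeal_of_mem _ (m.mul_mem_left r hb')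
    rw [hII] at h1
    have h2 : (1 : K l) ∈ (m : FractionalIdeal (R l)⁰ (K l)) := h1 (one_mem_one _)
    obtain ⟨r, hr, hr'⟩ := (mem_coeIdeal _).1 h2
    have h3 : r = 1 := IsFractionRing.injective (R l) (K l) (by rw [hr', map_one])
    rw [h3] at hr
    have h4 : ev l P 1 = 0 := hr
    rw [map_one] at h4
    exact one_ne_zero h4
  choose v hv using hint f hf
  have hf0 : f ≠ 0 := by
    rintro rfl
    have h1 := hi 0 (by rw [map_zero, zero_mul])
    exact h1 (map_zero _)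
  -- the last coordinate
  have hw : algebraMap (R l) (K l) (Pool.Agent.Lib.MP_8ae0c1_ag.xR l) * (f ^ 2 * p.1.2) ∈
      (algebraMap (R l) (K l)).range := by
    have h1 : (algebraMap (R l) (K l) (Pool.Agent.Lib.MP_8ae0c1_ag.xR l) * (f ^ 2 * p.1.2)) ^ 2 =
        algebraMap (R l) (K l) (Pool.Agent.Lib.MP_8ae0c1_ag.xR l * quart v) := by
      have h3 := p.2.2
      simp only [quart] at h3 ⊢
      simp only [map_mul, map_add, map_pow, hv]
      linear_combination algebraMap (R l) (K l) (Pool.Agent.Lib.MP_8ae0c1_ag.xR l) * f ^ 4 * h3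
    have h2 : IsIntegral (R l)
        (algebraMap (R l) (K l) (Pool.Agent.Lib.MP_8ae0c1_ag.xR l) * (f ^ 2 * p.1.2)) := by
      refine IsIntegral.of_pow two_pos ?_
      rw [h1]
      exact isIntegral_algebraMap
    exact IsIntegrallyClosed.isIntegral_iff.1 h2
  obtain ⟨u, hu⟩ := hw
  refine ⟨v, u, ⟨⟨(f • p.1.1, f ^ 2 * p.1.2), smul_ne_zero hf0 p.2.1, ?_⟩, ?_, ?_, ?_⟩, i,
    hi _ (hv i)⟩
  · have h3 := p.2.2
    simp only [quart, Pi.smul_apply, smul_eq_mul] at h3 ⊢
    linear_combination f ^ 4 * h3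
  · exact Quotient.sound ((Sol.rel_equiv l).symm ⟨f, hf0, rfl, rfl⟩)
  · funext i
    rw [hv]
    rfl
  · exact hu.symm

theorem coord_exists (s : Sec l) (P : Pt l) (hP : P.1.1 ≠ 0) : ∃ c, Coord l s P c := by
  obtain ⟨v, u, h, hi⟩ := exists_rep_at s P
  refine ⟨![ev l P (v 0), ev l P (v 1), ev l P (v 2), ev l P u / P.1.1], v, u, h, hi, rfl, rfl,
    rfl, ?_⟩
  exact mul_div_cancel₀ _ hP

end

end Pool.Agent.Lib.MP_8ae0c1_agH
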