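import Pool.Agent.Lib.MP_8ae0c1_agH.Der

/-!
# Ultrapowers of an algebraically closed field
-/

set_option autoImplicit false

namespace Pool.Agent.Lib.MP_8ae0c1_agH

open Filter

variable {S : Type} (U : Ultrafilter S) (F : Type) [Field F]

/-- The ultrapower. -/
abbrev UPow : Type := (U : Filter S).Germ F

/-- The class of a function. -/
noncomputable def cls : (S → F) →+* UPow U F := Germ.coeRingHom (U : Filter S)

/-- The constants. -/
noncomputable def cst : F →+* UPow U F := (cls U F).comp (Pi.constRingHom S F)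

variable {F}

theorem cls_surjective : Function.Surjective (cls U F) := Quot.mk_surjective

theorem cls_eq_iff (f g : S → F) : cls U F f = cls U F g ↔ ∀ᶠ s in (U : Filter S), f s = g s :=
  Germ.coe_eq

theorem cls_eq_zero_iff (f : S → F) : cls U F f = 0 ↔ ∀ᶠ s in (U : Filter S), f s = 0 := by
  rw [← map_zero (cls U F), cls_eq_iff]
  rfl

theorem cls_ne_zero_iff (f : S → F) : cls U F f ≠ 0 ↔ ∀ᶠ s in (U : Filter S), f s ≠ 0 := by
  rw [Ne, cls_eq_zero_iff]
  exact Ultrafilter.eventually_not.symm

instance upow_isAlgClosed [IsAlgClosed F] : IsAlgClosed (UPow U F) := by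
  refine IsAlgClosed.of_exists_root _ fun p hp hirr => ?_
  have hdeg : 0 < p.natDegree := hirr.natDegree_pos
  choose c hc using fun i => cls_surjective U (p.coeff i)
  have hroot : ∀ s, ∃ r : F, r ^ p.natDegree + ∑ i ∈ Finset.range p.natDegree, c i s * r ^ i = 0 := by
    intro s
    let q : Polynomial F := ∑ i ∈ Finset.range p.natDegree, Polynomial.C (c i s) * Polynomial.X ^ i
    have hq : q.degree < p.natDegree := by
      refine lt_of_le_of_lt (Polynomial.degree_sum_le _ _) ?_
      rw [Finset.sup_lt_iff (WithBot.bot_lt_coe _)]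
      intro i hi
      refine lt_of_le_of_lt (Polynomial.degree_C_mul_X_pow_le _ _) ?_
      exact_mod_cast Finset.mem_range.1 hi
    have hm : (Polynomial.X ^ p.natDegree + q).Monic := Polynomial.monic_X_pow_add hq
    have hd : (Polynomial.X ^ p.natDegree + q).degree ≠ 0 := by
      rw [Polynomial.degree_add_eq_left_of_degree_lt (by rw [Polynomial.degree_X_pow]; exact hq),
        Polynomial.degree_X_pow]
      exact_mod_cast hdeg.ne'
    obtain ⟨r, hr⟩ := IsAlgClosed.exists_root _ hd
    refine ⟨r, ?_⟩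
    rw [Polynomial.IsRoot, Polynomial.eval_add, Polynomial.eval_pow, Polynomial.eval_X,
      Polynomial.eval_finsetSum] at hr
    rw [← hr]
    congr 1
    exact Finset.sum_congr rfl fun i _ => by simp
  choose r hr using hroot
  refine ⟨cls U F r, ?_⟩
  rw [Polynomial.eval_eq_sum_range, Finset.sum_range_succ, hp.coeff_natDegree, one_mul]
  have h1 : ∑ i ∈ Finset.range p.natDegree, p.coeff i * cls U F r ^ i =
      cls U F (∑ i ∈ Finset.range p.natDegree, c i * r ^ i) := by
    rw [map_sum]
    exact Finset.sum_congr rfl fun i _ => by rw [map_mul, map_pow, hc]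
  rw [h1, ← map_pow, ← map_add, cls_eq_zero_iff]
  refine Eventually.of_forall fun s => ?_
  rw [← hr s, Pi.add_apply, Finset.sum_apply, add_comm]
  rfl

theorem upow_charZero [CharZero F] : CharZero (UPow U F) :=
  charZero_of_injective_ringHom (cst U F).injective

instance [CharZero F] : CharZero (UPow U F) := upow_charZero U

noncomputable instance upow_algebra : Algebra F (UPow U F) := (cst U F).toAlgebra

theorem upow_algebraMap (a : F) : algebraMap F (UPow U F) a = cls U F fun _ => a := rfl

theorem cls_eval {ι : Type*} (b : ι → S → F) (Q : MvPolynomial ι F) :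
    MvPolynomial.aeval (fun i => cls U F (b i)) Q =
      cls U F fun s => MvPolynomial.eval (fun i => b i s) Q := by
  induction Q using MvPolynomial.induction_on with
  | C a =>
    rw [MvPolynomial.aeval_C]
    simp only [MvPolynomial.eval_C]
    rfl
  | add p q hp hq =>
    rw [map_add, hp, hq, ← map_add]
    congr 1
    funext s
    simp
  | mul_X p i hp =>
    rw [map_mul, hp, MvPolynomial.aeval_X, ← map_mul]
    congr 1
    funext s
    simp

/-- Functions which are separated from all hypersurfaces are algebraically independent. -/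
theorem cls_indep {ι : Type*} (b : ι → S → F)
    (h : ∀ Q : MvPolynomial ι F, Q ≠ 0 →
      ∀ᶠ s in (U : Filter S), MvPolynomial.eval (fun i => b i s) Q ≠ 0) :
    AlgebraicIndependent F fun i => cls U F (b i) := by
  rw [algebraicIndependent_iff]
  intro Q hQ
  by_contra hne
  rw [cls_eval] at hQ
  exact (cls_ne_zero_iff U _).2 (h Q hne) hQ

/-- Derivations. -/
theorem exists_der_cls [CharZero F] {ι : Type*} [DecidableEq ι] (b : ι → S → F)
    (h : ∀ Q : MvPolynomial ι F, Q ≠ 0 →
      ∀ᶠ s in (U : Filter S), MvPolynomial.eval (fun i => b i s) Q ≠ 0) :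
    ∃ D : ι → Derivation ℤ (UPow U F) (UPow U F), (∀ i (a : F), D i (cst U F a) = 0) ∧
      ∀ i j, D i (cls U F (b j)) = if i = j then 1 else 0 := by
  have h1 := cls_indep U b h
  choose D hD0 hD using fun i => exists_der (fun j => cls U F (b j)) h1
    (fun j => if i = j then (1 : UPow U F) else 0)
  exact ⟨D, hD0, hD⟩

theorem exists_der_cst [CharZero F] (l : F) (hl : Transcendental ℚ l) :
    ∃ E : Derivation ℤ (UPow U F) (UPow U F), E (cst U F l) = 1 := by
  refine exists_der_transcendental _ ?_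
  let φ : F →ₐ[ℚ] UPow U F := (cst U F).toRatAlgHom
  exact fun h => hl ((isAlgebraic_algHom_iff φ φ.toRingHom.injective).1 h)

/-- Sets with the finite intersection property are contained in an ultrafilter. -/
theorem exists_ultrafilter {ι : Type*} (b : ι → S → F)
    (h : ∀ Q : MvPolynomial ι F, Q ≠ 0 → ∃ s, MvPolynomial.eval (fun i => b i s) Q ≠ 0) :
    ∃ U : Ultrafilter S, ∀ Q : MvPolynomial ι F, Q ≠ 0 →
      ∀ᶠ s in (U : Filter S), MvPolynomial.eval (fun i => b i s) Q ≠ 0 := by
  let B : {Q : MvPolynomial ι F // Q ≠ 0} → Set S := fun Q =>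
    {s | MvPolynomial.eval (fun i => b i s) Q.1 ≠ 0}
  have hdir : Directed (· ≥ ·) fun Q => 𝓟 (B Q) := by
    intro Q Q'
    refine ⟨⟨Q.1 * Q'.1, mul_ne_zero Q.2 Q'.2⟩, ?_, ?_⟩
    · refine Filter.principal_mono.2 fun s hs => ?_
      simp only [B, Set.mem_ofPred_eq, map_mul] at hs ⊢
      exact left_ne_zero_of_mul hs
    · refine Filter.principal_mono.2 fun s hs => ?_
      simp only [B, Set.mem_ofPred_eq, map_mul] at hs ⊢
      exact right_ne_zero_of_mul hs
  have hne : Nonempty {Q : MvPolynomial ι F // Q ≠ 0} := ⟨⟨1, one_ne_zero⟩⟩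
  have : NeBot (⨅ Q, 𝓟 (B Q)) := by
    refine Filter.iInf_neBot_of_directed' hdir fun Q => ?_
    rw [Filter.principal_neBot_iff]
    exact h Q.1 Q.2
  refine ⟨Ultrafilter.of (⨅ Q, 𝓟 (B Q)), fun Q hQ => ?_⟩
  have h1 : (Ultrafilter.of (⨅ Q, 𝓟 (B Q)) : Filter S) ≤ ⨅ Q, 𝓟 (B Q) := Ultrafilter.of_le _
  have h2 : (⨅ Q, 𝓟 (B Q)) ≤ 𝓟 (B ⟨Q, hQ⟩) := iInf_le _ _
  exact (h1.trans h2) (Filter.mem_principal_self _)

end Pool.Agent.Lib.MP_8ae0c1_agH
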