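import Pool.Agent.Lib.MP_8ae0c1_agH.Hom
import Pool.Agent.Lib.MP_8ae0c1_agH.Germ

/-!
# From a chain of irreducible closed sets of sections to an ultrafilter and independent functions
-/

set_option autoImplicit false
set_option linter.unusedSectionVars false

namespace Pool.Agent.Lib.MP_8ae0c1_agH

open Pool.Agent.Lib.MP_8ae0c1_ag EllFF MvPolynomial

section

variable {F : Type} [Field F] [IsAlgClosed F] [CharZero F] {l : F} [Leg l] {d : ℕ}

/-- The sections which are in the charts `j` at the points `P`. -/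
def chart {M : ℕ} (P : Fin M → Pt0 l) (j : Fin M → Fin 3) : Set (SecD l d) :=
  {s | ∀ k, s ∉ zero l d 1 (fun _ => P k) (X (0, (j k).castSucc))}

theorem isOpen_chart {M : ℕ} (P : Fin M → Pt0 l) (j : Fin M → Fin 3) :
    IsOpen (chart (d := d) P j) := by
  have h : chart (d := d) P j =
      ⋂ k, (zero l d 1 (fun _ => P k) (X (0, (j k).castSucc)))ᶜ := by
    ext s
    simp [chart]
  rw [h]
  exact isOpen_iInter_of_finite fun k => (isClosed_zero _ _).isOpen_compl

/-- Normalised coordinates in the charts. -/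
theorem exists_coord_chart {M : ℕ} (P : Fin M → Pt0 l) (j : Fin M → Fin 3) (s : SecD l d)
    (hs : s ∈ chart P j) : ∃ c : Fin M × Fin 4 → F,
      ∀ k, Coord l s.1 (P k).1 (fun i => c (k, i)) ∧ c (k, (j k).castSucc) = 1 := by
  have hw : ∀ i : Fin 3, wtt i.castSucc = 1 := by decide
  have h1 : ∀ k, ∃ c : Fin 4 → F, Coord l s.1 (P k).1 c ∧ c (j k).castSucc = 1 := by
    intro k
    have h2 := hs k
    simp only [zero, Set.mem_ofPred_eq] at h2
    push Not at h2
    obtain ⟨c, hc, hc'⟩ := h2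
    rw [eval_X] at hc'
    refine ⟨fun i => (c (0, (j k).castSucc))⁻¹ ^ wtt i * c (0, i),
      coord_smul (hc 0) (inv_ne_zero hc'), ?_⟩
    simp only [hw, pow_one]
    exact inv_mul_cancel₀ hc'
  choose c hc hc' using h1
  exact ⟨fun t => c t.1 t.2, fun k => ⟨hc k, hc' k⟩⟩

/-- Charts which contain a given section. -/
theorem exists_chart {M : ℕ} (P : Fin M → Pt0 l) (s : SecD l d) :
    ∃ j : Fin M → Fin 3, s ∈ chart P j := by
  have h : ∀ k, ∃ j : Fin 3, ∃ c, Coord l s.1 (P k).1 c ∧ c j.castSucc ≠ 0 := by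
    intro k
    obtain ⟨c, hc⟩ := coord_exists s.1 (P k).1 (P k).2
    obtain ⟨j, hj⟩ := coord_ne hc
    exact ⟨j, c, hc, hj⟩
  choose j c hc hj using h
  refine ⟨j, fun k hk => hj k ?_⟩
  have h1 := hk (fun t => c k t.2) fun _ => hc k
  rwa [eval_X] at h1

theorem bridge_a (n : ℕ) (Z : Fin (n + 1) → Set (SecD l d)) (hZ : ∀ i, IsIrreducible (Z i))
    (hZc : ∀ i, IsClosed (Z i)) (hlt : StrictMono Z) :
    ∃ (M : ℕ) (P : Fin M → Pt0 l) (j : Fin M → Fin 3)
      (B : Fin n → MvPolynomial (Fin M × Fin 4) F) (cc : SecD l d → Fin M × Fin 4 → F)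
      (U : Ultrafilter (SecD l d)),
      (∀ᶠ s in (U : Filter (SecD l d)), s ∈ Z (Fin.last n)) ∧
      (∀ᶠ s in (U : Filter (SecD l d)), ∀ k, Coord l s.1 (P k).1 (fun i => cc s (k, i)) ∧
        cc s (k, (j k).castSucc) = 1) ∧
      ∀ Q : MvPolynomial (Fin n) F, Q ≠ 0 →
        ∀ᶠ s in (U : Filter (SecD l d)), eval (fun i => eval (cc s) (B i)) Q ≠ 0 := by
  classical
  have hmono : ∀ i : Fin n, Z i.castSucc < Z i.succ := fun i => hlt (Fin.castSucc_lt_succ)
  have h1 : ∀ i : Fin n, ∃ (m : ℕ) (P : Fin m → Pt0 l) (G : MvPolynomial (Fin m × Fin 4) F)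
      (t : SecD l d), Z i.castSucc ⊆ zero l d m P G ∧ t ∈ Z i.succ ∧ t ∉ zero l d m P G := by
    intro i
    obtain ⟨t, ht, ht'⟩ := Set.exists_of_ssubset (hmono i)
    obtain ⟨m, P, G, h2, h3⟩ := exists_zero (hZ i.castSucc) (hZc _) subset_rfl ht'
    exact ⟨m, P, G, t, h2, ht, h3⟩
  choose m P' G t hG ht ht' using h1
  let e : (Σ i : Fin n, Fin (m i)) ≃ Fin (Fintype.card (Σ i : Fin n, Fin (m i))) :=
    Fintype.equivFin _
  set M := Fintype.card (Σ i : Fin n, Fin (m i)) with hM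
  let P : Fin M → Pt0 l := fun k => P' (e.symm k).1 (e.symm k).2
  have hP (i : Fin n) (k : Fin (m i)) : P (e ⟨i, k⟩) = P' i k := by
    simp only [P]
    rw [Equiv.symm_apply_apply]
  obtain ⟨s0, hs0⟩ := (hZ 0).nonempty
  obtain ⟨j, hj⟩ := exists_chart P s0
  have hs0' (i : Fin (n + 1)) : s0 ∈ Z i := hlt.monotone (Fin.zero_le i) hs0
  choose! cc hcc using fun s (hs : s ∈ chart P j) => exists_coord_chart P j s hs
  have hccC (s : SecD l d) (hs : s ∈ chart P j) (k : Fin M) :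
      Coord l s.1 (P k).1 (fun i => cc s (k, i)) := (hcc s hs k).1
  have hcc1 (s : SecD l d) (hs : s ∈ chart P j) (k : Fin M) : cc s (k, (j k).castSucc) = 1 :=
    (hcc s hs k).2
  have hUo := isOpen_chart (d := d) P j
  -- all coordinate vectors are scalings of the normalised ones
  have hscl (s : SecD l d) (hs : s ∈ chart P j) (c : Fin M × Fin 4 → F)
      (hc : ∀ k, Coord l s.1 (P k).1 fun i => c (k, i)) :
      ∃ a : Fin M → F, (∀ k, a k ≠ 0) ∧ c = scl a (cc s) := by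
    choose a ha ha' using fun k => coord_unique (P k).2 (hccC s hs k) (hc k)
    exact ⟨a, ha, funext fun t => ha' t.1 t.2⟩
  -- non-vanishing is an open condition
  have hopen (B : MvPolynomial (Fin M × Fin 4) F) : ∃ O : Set (SecD l d), IsOpen O ∧
      ∀ s ∈ chart P j, (s ∈ O ↔ eval (cc s) B ≠ 0) := by
    obtain ⟨N, H, hH⟩ := exists_hom j B
    refine ⟨(zero l d M P H)ᶜ, (isClosed_zero _ _).isOpen_compl, fun s hs => ?_⟩
    have h2 : ∀ a : Fin M → F, (∀ k, a k ≠ 0) →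
        (eval (scl a (cc s)) H = 0 ↔ eval (cc s) B = 0) := by
      intro a ha
      rw [hH _ _ (hcc1 s hs), mul_eq_zero, or_iff_right]
      exact pow_ne_zero _ (Finset.prod_ne_zero_iff.2 fun k _ => ha k)
    rw [Set.mem_compl_iff, not_iff_not]
    constructor
    · intro h
      have h3 := h (cc s) (hccC s hs)
      have h4 : scl (fun _ => (1 : F)) (cc s) = cc s := by
        funext t
        simp [scl]
      exact (h2 (fun _ => 1) fun _ => one_ne_zero).1 (by rw [h4]; exact h3)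
    · intro h c hc
      obtain ⟨a, ha, rfl⟩ := hscl s hs c hc
      exact (h2 a ha).2 h
  have hmeet (i : Fin (n + 1)) (O O' : Set (SecD l d)) (hO : IsOpen O) (hO' : IsOpen O')
      (h : (Z i ∩ O).Nonempty) (h' : (Z i ∩ O').Nonempty) : (Z i ∩ (O ∩ O')).Nonempty :=
    (hZ i).2 O O' hO hO' h h'
  obtain ⟨b, hb⟩ := chain_indep cc n (fun i => Z i ∩ chart P j) ⟨s0, hs0, hj⟩
    (fun i s hs => ⟨(hmono i).le hs.1, hs.2⟩) (fun i f g hfg => by
      by_contra hcon
      push Not at hcon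
      obtain ⟨⟨s1, hs1, h1⟩, s2, hs2, h2⟩ := hcon
      obtain ⟨O1, hO1, hO1'⟩ := hopen f
      obtain ⟨O2, hO2, hO2'⟩ := hopen g
      obtain ⟨s, hs, ⟨hsO1, hsU⟩, hsO2⟩ := hmeet i (O1 ∩ chart P j) O2 (hO1.inter hUo) hO2
        ⟨s1, hs1.1, (hO1' s1 hs1.2).2 h1, hs1.2⟩ ⟨s2, hs2.1, (hO2' s2 hs2.2).2 h2⟩
      have h3 := hfg s ⟨hs, hsU⟩
      rw [map_mul, mul_eq_zero] at h3
      rcases h3 with h3 | h3
      · exact (hO1' s hsU).1 hsO1 h3
      · exact (hO2' s hsU).1 hsO2 h3) (fun i => by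
      obtain ⟨s, hs, hsO, hsU⟩ := hmeet i.succ (zero l d (m i) (P' i) (G i))ᶜ (chart P j)
        (isClosed_zero _ _).isOpen_compl hUo ⟨t i, ht i, ht' i⟩ ⟨s0, hs0' _, hj⟩
      rw [Set.mem_compl_iff] at hsO
      simp only [zero, Set.mem_ofPred_eq] at hsO
      push Not at hsO
      obtain ⟨c, hc, hc'⟩ := hsO
      have h2 : ∀ k : Fin (m i), ∃ a : F, a ≠ 0 ∧ ∀ r, c (k, r) = a ^ wtt r * cc s (e ⟨i, k⟩, r) := by
        intro k
        have h3 := hccC s hsU (e ⟨i, k⟩)
        rw [hP] at h3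
        exact coord_unique (P' i k).2 h3 (hc k)
      choose a ha ha' using h2
      let f : MvPolynomial (Fin M × Fin 4) F :=
        bind₁ (fun t : Fin (m i) × Fin 4 => C (a t.1 ^ wtt t.2) * X (e ⟨i, t.1⟩, t.2)) (G i)
      have hf (s : SecD l d) : eval (cc s) f =
          eval (fun t : Fin (m i) × Fin 4 => a t.1 ^ wtt t.2 * cc s (e ⟨i, t.1⟩, t.2)) (G i) := by
        rw [eval_bind]
        congr 2
        funext t
        rw [map_mul, eval_C, eval_X]
      refine ⟨f, fun s' hs' => ?_, s, ⟨hs, hsU⟩, ?_⟩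
      · rw [hf]
        refine hG i hs'.1 _ fun k => ?_
        have h3 := hccC s' hs'.2 (e ⟨i, k⟩)
        rw [hP] at h3
        exact coord_smul h3 (ha k)
      · rw [hf]
        have h3 : (fun t : Fin (m i) × Fin 4 => a t.1 ^ wtt t.2 * cc s (e ⟨i, t.1⟩, t.2)) = c :=
          funext fun t => (ha' t.1 t.2).symm
        rw [h3]
        exact hc')
  -- the ultrafilter
  let S : Type := {s : SecD l d // s ∈ Z (Fin.last n) ∩ chart P j}
  obtain ⟨U, hU⟩ := exists_ultrafilter (S := S) (F := F) (fun i s => eval (cc s.1) (b i))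
    fun Q hQ => by
      obtain ⟨s, hs, hs'⟩ := hb Q hQ
      exact ⟨⟨s, hs⟩, hs'⟩
  refine ⟨M, P, j, b, cc, U.map Subtype.val, ?_, ?_, fun Q hQ => ?_⟩
  · rw [Ultrafilter.coe_map, Filter.eventually_map]
    exact Filter.Eventually.of_forall fun s => s.2.1
  · rw [Ultrafilter.coe_map, Filter.eventually_map]
    exact Filter.Eventually.of_forall fun s => hcc s.1 s.2.2
  · rw [Ultrafilter.coe_map, Filter.eventually_map]
    exact hU Q hQ

end

end Pool.Agent.Lib.MP_8ae0c1_agH
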