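import Pool.Agent.Lib.MP_8ae0c1_agH.BridgeA

/-!
# The field and the derivations
-/

set_option autoImplicit false

namespace Pool.Agent.Lib.MP_8ae0c1_agH

open Pool.Agent.Lib.MP_8ae0c1_ag EllFF MvPolynomial

/-- A derivation which kills the constants and the classes of some functions kills the classes of
all polynomials in them. -/
theorem der_cls_eval {S ι : Type} (U : Ultrafilter S) {F : Type} [Field F]
    (D : Derivation ℤ (UPow U F) (UPow U F)) (hD : ∀ a : F, D (cst U F a) = 0) (b : ι → S → F)
    (hb : ∀ i, D (cls U F (b i)) = 0) (Q : MvPolynomial ι F) :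
    D (cls U F fun s => eval (fun i => b i s) Q) = 0 := by
  induction Q using MvPolynomial.induction_on with
  | C a =>
    simp only [eval_C]
    exact hD a
  | add p q hp hq =>
    have h1 : (cls U F fun s => eval (fun i => b i s) (p + q)) =
        (cls U F fun s => eval (fun i => b i s) p) + cls U F fun s => eval (fun i => b i s) q := by
      rw [← map_add]
      congr 1
      funext s
      rw [map_add]
      rfl
    rw [h1, map_add, hp, hq, add_zero]
  | mul_X p i hp =>
    have h1 : (cls U F fun s => eval (fun i => b i s) (p * X i)) =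
        (cls U F fun s => eval (fun i => b i s) p) * cls U F (b i) := by
      rw [← map_mul]
      congr 1
      funext s
      rw [map_mul, eval_X]
      rfl
    rw [h1, Derivation.leibniz, hp, hb, smul_zero, smul_zero, add_zero]

theorem der_sum_apply {L : Type} [Field L] {n : ℕ} (a : Fin n → L) (D : Fin n → Derivation ℤ L L)
    (t : Finset (Fin n)) (x : L) : (∑ k ∈ t, a k • D k) x = ∑ k ∈ t, a k * D k x := by
  classical
  induction t using Finset.induction_on with
  | empty => simp
  | insert i t hi ih =>
    rw [Finset.sum_insert hi, Finset.sum_insert hi, Derivation.add_apply, ih,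
      Derivation.smul_apply, smul_eq_mul]

/-- The result of the first part of the bridge: points, charts, coordinates, an ultrafilter on the
space of sections, a derivation `E` with `E l = 1` and derivations `D i` over the constants such that
no nontrivial combination of the `D i` kills all coordinates at the points `P k`. -/
theorem bridge_field (l : ℂ) [Leg l] (hl : Transcendental ℚ l) (d n : ℕ)
    (Z : Fin (n + 1) → Set (SecD l d)) (hZ : ∀ i, IsIrreducible (Z i))
    (hZc : ∀ i, IsClosed (Z i)) (hlt : StrictMono Z) :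
    ∃ (M : ℕ) (P : Fin M → Pt0 l) (j : Fin M → Fin 3) (cc : SecD l d → Fin M × Fin 4 → ℂ)
      (U : Ultrafilter (SecD l d)) (E : Derivation ℤ (UPow U ℂ) (UPow U ℂ))
      (D : Fin n → Derivation ℤ (UPow U ℂ) (UPow U ℂ)),
      (∀ᶠ s in (U : Filter (SecD l d)), s ∈ Z (Fin.last n)) ∧
      (∀ᶠ s in (U : Filter (SecD l d)), ∀ k, Coord l s.1 (P k).1 (fun i => cc s (k, i)) ∧
        cc s (k, (j k).castSucc) = 1) ∧
      E (cst U ℂ l) = 1 ∧ (∀ i (a : ℂ), D i (cst U ℂ a) = 0) ∧
      ∀ a : Fin n → UPow U ℂ,
        (∀ t, (∑ k, a k • D k) (cls U ℂ fun s => cc s t) = 0) → a = 0 := by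
  classical
  obtain ⟨M, P, j, B, cc, U, h1, h2, h3⟩ := bridge_a n Z hZ hZc hlt
  obtain ⟨E, hE⟩ := exists_der_cst U l hl
  obtain ⟨D, hD0, hD⟩ := exists_der_cls U (fun i s => eval (cc s) (B i)) h3
  refine ⟨M, P, j, cc, U, E, D, h1, h2, hE, hD0, fun a ha => ?_⟩
  funext i
  have h4 : ∀ b : ℂ, (∑ k, a k • D k) (cst U ℂ b) = 0 := by
    intro b
    rw [der_sum_apply]
    exact Finset.sum_eq_zero fun k _ => by rw [hD0, mul_zero]
  have h5 := der_cls_eval U (∑ k, a k • D k) h4 (fun t s => cc s t) ha (B i)
  rw [der_sum_apply] at h5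
  have h6 : ∀ k, a k * D k (cls U ℂ fun s => eval (fun t => cc s t) (B i)) =
      if k = i then a k else 0 := by
    intro k
    have h7 : D k (cls U ℂ fun s => eval (fun t => cc s t) (B i)) = if k = i then 1 else 0 :=
      hD k i
    rw [h7]
    split_ifs
    · rw [mul_one]
    · rw [mul_zero]
  rw [Finset.sum_congr rfl fun k _ => h6 k, Finset.sum_ite_eq' Finset.univ i] at h5
  simpa using h5

end Pool.Agent.Lib.MP_8ae0c1_agH
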