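import Mathlib

/-!
# A chain of irreducible sets of length `n` gives `n` algebraically independent functions
-/

set_option autoImplicit false

namespace Pool.Agent.Lib.MP_8ae0c1_agH

open MvPolynomial

theorem eval_bind {F σ τ : Type*} [Field F] (b : σ → MvPolynomial τ F) (x : τ → F)
    (Q : MvPolynomial σ F) : eval x (bind₁ b Q) = eval (fun i => eval x (b i)) Q := by
  induction Q using MvPolynomial.induction_on with
  | C a => simp
  | add p q hp hq => rw [map_add, map_add, map_add, hp, hq]
  | mul_X p i hp => rw [map_mul, map_mul, map_mul, hp, bind₁_X_right, eval_X]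

theorem chain_indep {S F ι : Type*} [Field F] (γ : S → ι → F) (n : ℕ) :
    ∀ (Z : Fin (n + 1) → Set S), (Z 0).Nonempty → (∀ i : Fin n, Z i.castSucc ⊆ Z i.succ) →
    (∀ i, ∀ f g : MvPolynomial ι F, (∀ s ∈ Z i, eval (γ s) (f * g) = 0) →
      (∀ s ∈ Z i, eval (γ s) f = 0) ∨ ∀ s ∈ Z i, eval (γ s) g = 0) →
    (∀ i : Fin n, ∃ f : MvPolynomial ι F, (∀ s ∈ Z i.castSucc, eval (γ s) f = 0) ∧
      ∃ s ∈ Z i.succ, eval (γ s) f ≠ 0) →
    ∃ b : Fin n → MvPolynomial ι F, ∀ Q : MvPolynomial (Fin n) F, Q ≠ 0 →
      ∃ s ∈ Z (Fin.last n), eval (fun i => eval (γ s) (b i)) Q ≠ 0 := by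
  induction n with
  | zero =>
    intro Z h0 _ _ _
    refine ⟨Fin.elim0, fun Q hQ => ?_⟩
    obtain ⟨s, hs⟩ := h0
    refine ⟨s, hs, fun h => hQ ?_⟩
    rw [eq_C_of_isEmpty Q] at h ⊢
    rw [eval_C] at h
    rw [h, C_0]
  | succ n ih =>
    intro Z h0 hm hirr hsep
    obtain ⟨b, hb⟩ := ih (fun i => Z i.castSucc) h0 (fun i => hm i.castSucc)
      (fun i => hirr i.castSucc) (fun i => hsep i.castSucc)
    obtain ⟨f, hf0, s1, hs1, hf1⟩ := hsep (Fin.last n)
    let Ψ : Polynomial (MvPolynomial (Fin n) F) →+* MvPolynomial ι F :=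
      Polynomial.eval₂RingHom (bind₁ b : MvPolynomial (Fin n) F →ₐ[F] MvPolynomial ι F).toRingHom f
    have key : ∀ (k : ℕ) (q : Polynomial (MvPolynomial (Fin n) F)), q.natDegree ≤ k → q ≠ 0 →
        ∃ s ∈ Z (Fin.last (n + 1)), eval (γ s) (Ψ q) ≠ 0 := by
      have hbase : ∀ q : Polynomial (MvPolynomial (Fin n) F), q.coeff 0 ≠ 0 →
          ∃ s ∈ Z (Fin.last (n + 1)), eval (γ s) (Ψ q) ≠ 0 := by
        intro q hq
        obtain ⟨s, hs, hs'⟩ := hb _ hq
        refine ⟨s, hm (Fin.last n) hs, ?_⟩
        have h1 : q = Polynomial.X * q.divX + Polynomial.C (q.coeff 0) :=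
          (Polynomial.X_mul_divX_add q).symm
        rw [h1, map_add, map_mul]
        have h2 : Ψ Polynomial.X = f := by simp [Ψ]
        have h3 : Ψ (Polynomial.C (q.coeff 0)) = bind₁ b (q.coeff 0) := by simp [Ψ]
        rw [h2, h3, map_add, map_mul, hf0 s hs, zero_mul, zero_add]
        have h4 : eval (γ s) (bind₁ b (q.coeff 0)) =
            eval (fun i => eval (γ s) (b i)) (q.coeff 0) := eval_bind _ _ _
        rw [h4]
        exact hs'
      intro k
      induction k with
      | zero =>
        intro q hk hq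
        refine hbase q fun h => hq ?_
        rw [Polynomial.eq_C_of_natDegree_le_zero hk, h, Polynomial.C_0]
      | succ k ihk =>
        intro q hk hq
        by_cases h0' : q.coeff 0 = 0
        · have h1 : q = Polynomial.X * q.divX := by
            have h2 := Polynomial.X_mul_divX_add q
            rw [h0', Polynomial.C_0, add_zero] at h2
            exact h2.symm
          have h3 : q.divX ≠ 0 := fun h => hq (by rw [h1, h, mul_zero])
          have h4 : q.divX.natDegree ≤ k := by
            rw [Polynomial.natDegree_divX_eq_natDegree_tsub_one]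
            omega
          obtain ⟨s, hs, hs'⟩ := ihk _ h4 h3
          by_contra hcon
          push Not at hcon
          have h5 : Ψ q = f * Ψ q.divX := by
            conv_lhs => rw [h1]
            rw [map_mul]
            congr 1
            simp [Ψ]
          rcases hirr (Fin.last (n + 1)) f (Ψ q.divX) (fun s hs => by rw [← h5]; exact hcon s hs)
            with h6 | h6
          · exact hf1 (h6 s1 hs1)
          · exact hs' (h6 s hs)
        · exact hbase q h0'
    refine ⟨Fin.cons f b, fun Q hQ => ?_⟩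
    have hq : finSuccEquiv F n Q ≠ 0 := by
      rw [Ne, EmbeddingLike.map_eq_zero_iff]
      exact hQ
    obtain ⟨s, hs, hs'⟩ := key _ _ le_rfl hq
    refine ⟨s, hs, ?_⟩
    have h1 : ∀ Q : MvPolynomial (Fin (n + 1)) F, eval (γ s) (Ψ (finSuccEquiv F n Q)) =
        eval (fun i => eval (γ s) ((Fin.cons f b : Fin (n + 1) → MvPolynomial ι F) i)) Q := by
      intro Q
      induction Q using MvPolynomial.induction_on with
      | C a =>
        have h2 : finSuccEquiv F n (C a) = Polynomial.C (C a) := by
          have h3 := RingHom.congr_fun (finSuccEquiv_comp_C_eq_C (R := F) n) a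
          rw [← h3]
          exact AlgEquiv.apply_symm_apply _ _
        rw [h2]
        simp [Ψ]
      | add p q hp hq => rw [map_add, map_add, map_add, hp, hq, map_add]
      | mul_X p i hp =>
        rw [map_mul, map_mul, map_mul, hp, map_mul, eval_X]
        congr 1
        refine Fin.cases ?_ (fun i => ?_) i
        · rw [finSuccEquiv_X_zero, Fin.cons_zero]
          simp [Ψ]
        · rw [finSuccEquiv_X_succ, Fin.cons_succ]
          simp [Ψ]
    rw [← h1]
    exact hs'

end Pool.Agent.Lib.MP_8ae0c1_agH
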