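import Mathlib

/-!
# Derivations with prescribed values on an algebraically independent family
-/

set_option autoImplicit false

namespace Pool.Agent.Lib.MP_8ae0c1_agH

open MvPolynomial

/-- A derivation of the polynomial ring with values in an algebra, with value zero on the coefficients
and given values on the variables. -/
theorem exists_der_poly {k L ι : Type*} [Field k] [Field L] [Algebra k L] (x : ι → L) (v : ι → L) :
    ∃ D : MvPolynomial ι k →+ L, (∀ p q, D (p * q) = aeval x p * D q + aeval x q * D p) ∧
      (∀ a, D (C a) = 0) ∧ ∀ i, D (X i) = v i := by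
  let c : k →+* TrivSqZeroExt L L :=
    { toFun := fun a => (algebraMap k L a, 0)
      map_one' := TrivSqZeroExt.ext (map_one _) rfl
      map_mul' := fun a b => TrivSqZeroExt.ext (map_mul _ a b) (by
        rw [TrivSqZeroExt.snd_mul]
        show (0 : L) = algebraMap k L a • (0 : L) + MulOpposite.op (algebraMap k L b) • (0 : L)
        rw [smul_zero, smul_zero, add_zero])
      map_zero' := TrivSqZeroExt.ext (map_zero _) rfl
      map_add' := fun a b => TrivSqZeroExt.ext (map_add _ a b) (add_zero (0 : L)).symm }
  let φ : MvPolynomial ι k →+* TrivSqZeroExt L L := eval₂Hom c fun i => (x i, v i)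
  have hfst : ∀ p, (φ p).fst = aeval x p := by
    intro p
    induction p using MvPolynomial.induction_on with
    | C a =>
      show (eval₂Hom c _ (C a)).fst = _
      rw [eval₂Hom_C, aeval_C]
      rfl
    | add p q hp hq => rw [map_add, TrivSqZeroExt.fst_add, hp, hq, map_add]
    | mul_X p i hp =>
      rw [map_mul, TrivSqZeroExt.fst_mul, hp, map_mul, aeval_X]
      congr 1
      show (eval₂Hom c _ (X i)).fst = _
      rw [eval₂Hom_X']
      rfl
  refine ⟨{ toFun := fun p => (φ p).snd, map_zero' := ?_, map_add' := fun p q => ?_ },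
    fun p q => ?_, fun a => ?_, fun i => ?_⟩
  · rw [map_zero, TrivSqZeroExt.snd_zero]
  · rw [map_add, TrivSqZeroExt.snd_add]
  · show (φ (p * q)).snd = aeval x p * (φ q).snd + aeval x q * (φ p).snd
    rw [map_mul, TrivSqZeroExt.snd_mul, hfst, hfst, smul_eq_mul, op_smul_eq_mul,
      mul_comm (φ p).snd]
  · show (eval₂Hom c _ (C a)).snd = 0
    rw [eval₂Hom_C]
    rfl
  · show (eval₂Hom c _ (X i)).snd = v i
    rw [eval₂Hom_X']
    rfl

open scoped IntermediateField.algebraAdjoinAdjoin in
/-- Derivations with prescribed values on a transcendence basis. -/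
theorem exists_der_basis {k L ι : Type*} [Field k] [CharZero k] [Field L] [Algebra k L] (X : ι → L)
    (hX : AlgebraicIndependent k X)
    (hL : Algebra.IsAlgebraic (IntermediateField.adjoin k (Set.range X)) L) (v : ι → L) :
    ∃ D : Derivation ℤ L L, (∀ a : k, D (algebraMap k L a) = 0) ∧ ∀ i, D (X i) = v i := by
  obtain ⟨D0, hD0, hD1, hD2⟩ := exists_der_poly (k := k) X v
  have hsep : Algebra.IsSeparable (IntermediateField.adjoin k (Set.range X)) L :=
    inferInstance
  have h1 : Algebra.FormallyEtale (Algebra.adjoin k (Set.range X))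
      (IntermediateField.adjoin k (Set.range X)) :=
    Algebra.FormallyEtale.of_isLocalization
      (nonZeroDivisors (Algebra.adjoin k (Set.range X)))
  have h2 : Algebra.FormallyEtale (IntermediateField.adjoin k (Set.range X)) L :=
    Algebra.FormallyEtale.of_isSeparable _ L
  have h3 : Algebra.FormallyEtale (Algebra.adjoin k (Set.range X)) L :=
    Algebra.FormallyEtale.comp _ (IntermediateField.adjoin k (Set.range X)) _
  have hbc : IsBaseChange L (KaehlerDifferential.map ℤ ℤ (Algebra.adjoin k (Set.range X)) L) :=
    KaehlerDifferential.isBaseChange_of_formallyEtale ℤ (Algebra.adjoin k (Set.range X)) L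
  have hsm : ∀ s : Algebra.adjoin k (Set.range X), aeval X (hX.aevalEquiv.symm s) = (s : L) := by
    intro s
    rw [← hX.algebraMap_aevalEquiv, AlgEquiv.apply_symm_apply]
    rfl
  let D1 : Algebra.adjoin k (Set.range X) →+ L :=
    D0.comp (hX.aevalEquiv.symm : Algebra.adjoin k (Set.range X) →+ MvPolynomial ι k)
  have hD1a : ∀ s, D1 s = D0 (hX.aevalEquiv.symm s) := fun _ => rfl
  let d : Derivation ℤ (Algebra.adjoin k (Set.range X)) L :=
    Derivation.mk' D1.toIntLinearMap (by
      intro a b
      change D1 (a * b) = (a : L) * D1 b + (b : L) * D1 a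
      rw [hD1a, hD1a, hD1a, map_mul, hD0, hsm, hsm])
  have hd : ∀ s, d s = D0 (hX.aevalEquiv.symm s) := fun _ => rfl
  let D : Derivation ℤ L L :=
    (hbc.lift d.liftKaehlerDifferential).compDer (KaehlerDifferential.D ℤ L)
  have hD : ∀ s : Algebra.adjoin k (Set.range X), D (s : L) = d s := by
    intro s
    have h4 : KaehlerDifferential.D ℤ L (algebraMap (Algebra.adjoin k (Set.range X)) L s)
        = KaehlerDifferential.map ℤ ℤ (Algebra.adjoin k (Set.range X)) L
          (KaehlerDifferential.D ℤ (Algebra.adjoin k (Set.range X)) s) := by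
      rw [KaehlerDifferential.map_D]
    change hbc.lift d.liftKaehlerDifferential
      (KaehlerDifferential.D ℤ L (algebraMap (Algebra.adjoin k (Set.range X)) L s)) = _
    rw [h4, hbc.lift_eq, Derivation.liftKaehlerDifferential_comp_D]
  refine ⟨D, ?_, ?_⟩
  · intro a
    have h5 := hD (algebraMap k (Algebra.adjoin k (Set.range X)) a)
    rw [hd, AlgEquiv.commutes, MvPolynomial.algebraMap_eq, hD1] at h5
    exact h5
  · intro i
    have h5 := hD (hX.aevalEquiv (MvPolynomial.X i))
    rw [hd, AlgEquiv.symm_apply_apply, hD2] at h5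
    rw [← h5]
    congr 1
    have h6 := hX.algebraMap_aevalEquiv (MvPolynomial.X i)
    rw [aeval_X] at h6
    exact h6.symm

/-- Derivations with prescribed values on an algebraically independent family. -/
theorem exists_der {k L ι : Type*} [Field k] [CharZero k] [Field L] [Algebra k L] (y : ι → L)
    (hy : AlgebraicIndependent k y) (v : ι → L) :
    ∃ D : Derivation ℤ L L, (∀ a : k, D (algebraMap k L a) = 0) ∧ ∀ i, D (y i) = v i := by
  classical
  obtain ⟨t, hst, ht⟩ := exists_isTranscendenceBasis_superset hy.coe_range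
  have hi : Function.Injective y := hy.injective
  have halg : Algebra.IsAlgebraic (IntermediateField.adjoin k (Set.range ((↑) : t → L))) L :=
    ht.isAlgebraic_field
  obtain ⟨D, hD0, hD⟩ := exists_der_basis ((↑) : t → L) ht.1 halg
    fun z : t => if h : ∃ l, y l = z.1 then v h.choose else 0
  refine ⟨D, hD0, fun l => ?_⟩
  have h1 := hD ⟨y l, hst ⟨l, rfl⟩⟩
  have h2 : ∃ l', y l' = y l := ⟨l, rfl⟩
  simp only at h1
  rw [dif_pos h2] at h1
  rw [hi h2.choose_spec] at h1
  exact h1

/-- A derivation with value one at a transcendental element. -/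
theorem exists_der_transcendental {L : Type*} [Field L] [CharZero L] (l : L)
    (hl : Transcendental ℚ l) : ∃ E : Derivation ℤ L L, E l = 1 := by
  have h1 : AlgebraicIndependent ℚ (fun _ : Unit => l) :=
    algebraicIndependent_unique_type_iff.2 hl
  obtain ⟨D, -, hD⟩ := exists_der (fun _ : Unit => l) h1 fun _ => 1
  exact ⟨D, hD ()⟩

end Pool.Agent.Lib.MP_8ae0c1_agH
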