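import Pool.Agent.Lib.MP_8ae0c1_agH.Coord
import Pool.Agent.Lib.MP_8ae0c1_agH.Chain

/-!
# Homogenisation and the topology of the space of sections
-/

set_option autoImplicit false

namespace Pool.Agent.Lib.MP_8ae0c1_agH

open Pool.Agent.Lib.MP_8ae0c1_ag MvPolynomial

/-- Weighted scaling. -/
def scl {F : Type} [Field F] {M : ℕ} (a : Fin M → F) (c : Fin M × Fin 4 → F) : Fin M × Fin 4 → F :=
  fun t => a t.1 ^ wtt t.2 * c t

/-- Homogenisation with respect to the charts `j`. -/
theorem exists_hom {F : Type} [Field F] {M : ℕ} (j : Fin M → Fin 3)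
    (B : MvPolynomial (Fin M × Fin 4) F) :
    ∃ (N : ℕ) (G : MvPolynomial (Fin M × Fin 4) F), ∀ (c : Fin M × Fin 4 → F) (a : Fin M → F),
      (∀ k, c (k, (j k).castSucc) = 1) → eval (scl a c) G = (∏ k, a k) ^ N * eval c B := by
  classical
  have hw : ∀ i : Fin 3, wtt i.castSucc = 1 := by decide
  have hX (c : Fin M × Fin 4 → F) (a : Fin M → F) (hc : ∀ k, c (k, (j k).castSucc) = 1)
      (k : Fin M) : eval (scl a c) (X (k, (j k).castSucc)) = a k := by
    rw [eval_X, scl]
    simp only [hw, pow_one, hc, mul_one]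
  let L : MvPolynomial (Fin M × Fin 4) F := ∏ k, X (k, (j k).castSucc)
  have hL (c : Fin M × Fin 4 → F) (a : Fin M → F) (hc : ∀ k, c (k, (j k).castSucc) = 1) :
      eval (scl a c) L = ∏ k, a k := by
    rw [map_prod]
    exact Finset.prod_congr rfl fun k _ => hX c a hc k
  induction B using MvPolynomial.induction_on with
  | C b => exact ⟨0, C b, fun c a _ => by rw [eval_C, eval_C, pow_zero, one_mul]⟩
  | add p q hp hq =>
    obtain ⟨N1, G1, h1⟩ := hp
    obtain ⟨N2, G2, h2⟩ := hq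
    refine ⟨N1 + N2, L ^ N2 * G1 + L ^ N1 * G2, fun c a hc => ?_⟩
    rw [map_add, map_mul, map_mul, map_pow, map_pow, hL c a hc, h1 c a hc, h2 c a hc, map_add]
    ring
  | mul_X p t hp =>
    obtain ⟨N, G, h⟩ := hp
    refine ⟨N + wtt t.2, G * X t * (∏ k ∈ Finset.univ.erase t.1, X (k, (j k).castSucc)) ^ wtt t.2,
      fun c a hc => ?_⟩
    rw [map_mul, map_mul, map_pow, map_prod, h c a hc, map_mul, eval_X, eval_X,
      Finset.prod_congr rfl fun k _ => hX c a hc k, pow_add,
      ← Finset.mul_prod_erase Finset.univ a (Finset.mem_univ t.1)]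
    simp only [scl, mul_pow]
    ring

section

variable {F : Type} [Field F] {l : F} {d : ℕ}

theorem isClosed_zero {m : ℕ} (P : Fin m → Pt0 l) (G : MvPolynomial (Fin m × Fin 4) F) :
    IsClosed (zero l d m P G) := by
  rw [← isOpen_compl_iff]
  exact TopologicalSpace.isOpen_generateFrom_of_mem ⟨m, P, G, rfl⟩

/-- An irreducible set contained in a closed set, and a point outside. -/
theorem exists_zero {Z T : Set (SecD l d)} (hZ : IsIrreducible Z) (hT : IsClosed T) (hZT : Z ⊆ T)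
    {t : SecD l d} (ht : t ∉ T) :
    ∃ (m : ℕ) (P : Fin m → Pt0 l) (G : MvPolynomial (Fin m × Fin 4) F),
      Z ⊆ zero l d m P G ∧ t ∉ zero l d m P G := by
  classical
  have hb := TopologicalSpace.isTopologicalBasis_of_subbasis
    (t := (inferInstance : TopologicalSpace (SecD l d)))
    (s := {U | ∃ (m : ℕ) (P : Fin m → Pt0 l) (G : MvPolynomial (Fin m × Fin 4) F),
      U = (zero l d m P G)ᶜ}) rfl
  obtain ⟨_, ⟨f, ⟨hf, hf'⟩, rfl⟩, h1, h2⟩ :=
    hb.exists_subset_of_mem_open (a := t) (u := Tᶜ) ht hT.isOpen_compl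
  have h3 : Z ⊆ ⋃₀ (((hf.toFinset.image compl : Finset (Set (SecD l d)))) : Set (Set (SecD l d))) := by
    intro z hz
    by_contra hcon
    have h4 : z ∈ ⋂₀ f := by
      intro V hV
      by_contra hzV
      refine hcon ⟨Vᶜ, ?_, hzV⟩
      rw [Finset.mem_coe, Finset.mem_image]
      exact ⟨V, by simpa using hV, rfl⟩
    exact h2 h4 (hZT hz)
  obtain ⟨V, hV, hV'⟩ := isIrreducible_iff_sUnion_isClosed.1 hZ (hf.toFinset.image compl)
    (fun V hV => by
      rw [Finset.mem_image] at hV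
      obtain ⟨V', h4, rfl⟩ := hV
      obtain ⟨m, P, G, rfl⟩ := hf' (by simpa using h4)
      rw [compl_compl]
      exact isClosed_zero P G) h3
  rw [Finset.mem_image] at hV
  obtain ⟨V', h4, rfl⟩ := hV
  have h5 : V' ∈ f := by simpa using h4
  obtain ⟨m, P, G, rfl⟩ := hf' h5
  rw [compl_compl] at hV'
  exact ⟨m, P, G, hV', h1 _ h5⟩

end

end Pool.Agent.Lib.MP_8ae0c1_agH
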