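import Pool.Agent.Lib.MP_8ae0c1_ag.HeightB

/-!
# Two representatives of bounded degree without common zero
-/

set_option autoImplicit false

namespace Pool.Agent.Lib.MP_8ae0c1_agH

open Pool.Agent.Lib.MP_8ae0c1_ag EllFF

set_option linter.unusedSectionVars false

variable {F : Type} [Field F] [IsAlgClosed F] [CharZero F] {l : F} [Leg l]

theorem isRep_smulK {s : Sec l} {v v' : Fin 3 → R l} {u u' : R l} (h : IsRep l s v u) {g : K l}
    (hg : g ≠ 0) (hv : ∀ i, algebraMap (R l) (K l) (v' i) = g * algebraMap (R l) (K l) (v i))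
    (hu : algebraMap (R l) (K l) u' = g ^ 2 * algebraMap (R l) (K l) u) : IsRep l s v' u' := by
  obtain ⟨p, hp, h1, h2⟩ := h
  refine ⟨⟨(g • p.1.1, g ^ 2 * p.1.2), smul_ne_zero hg p.2.1, ?_⟩, ?_, ?_, ?_⟩
  · have h3 := p.2.2
    simp only [quart, Pi.smul_apply, smul_eq_mul] at h3 ⊢
    linear_combination g ^ 4 * h3
  · rw [← hp]
    exact Quotient.sound ((Sol.rel_equiv l).symm ⟨g, hg, rfl, rfl⟩)
  · funext i
    simp only [Pi.smul_apply, smul_eq_mul, h1, hv]
  · rw [hu, ← h2]
    change _ * (g ^ 2 * p.1.2) = g ^ 2 * _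
    ring

theorem ev_evR (P : Pt l) (r : R l) : ev l P r = evR P.1.1 P.1.2 P.2 r := by
  obtain ⟨p, q, rfl⟩ := RL_repr r
  have hx : ev l P (EllFF.xR l) = P.1.1 := by
    show ev l P (AdjoinRoot.of _ Polynomial.X) = _
    rw [ev, AdjoinRoot.lift_of, Polynomial.coe_evalRingHom, Polynomial.eval_X]
  have hy : ev l P (EllFF.yR l) = P.1.2 := by
    show ev l P (AdjoinRoot.root _) = _
    rw [ev, AdjoinRoot.lift_root]
  have hc : ∀ a : F, ev l P (algebraMap F (R l) a) = a := fun a => by
    have h : algebraMap F (R l) a = AdjoinRoot.of _ (Polynomial.C a) := rfl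
    rw [h, ev, AdjoinRoot.lift_of, Polynomial.coe_evalRingHom, Polynomial.eval_C]
  have hp : ∀ p : Polynomial F, ev l P (Polynomial.aeval (EllFF.xR l) p) = p.eval P.1.1 := by
    intro p
    induction p using Polynomial.induction_on' with
    | add p q hp hq => rw [map_add, map_add, hp, hq, Polynomial.eval_add]
    | monomial n a =>
      rw [Polynomial.aeval_monomial, map_mul, hc, map_pow, hx, Polynomial.eval_monomial]
  rw [map_add, map_mul, hp, hp, hy, map_add, map_mul, evR_y, ← Polynomial.aeval_algHom_apply,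
    ← Polynomial.aeval_algHom_apply, evR_x]
  rfl

theorem ev_ne_iff (P : Pt l) (r : R l) : ev l P r ≠ 0 ↔
    algebraMap (R l) (K l) r ≠ 0 ∧
      ord (Place.pt P.1.1 P.1.2 P.2) (algebraMap (R l) (K l) r) = 0 := by
  rw [ev_evR, Ne, ← ordGe_one_iff]
  constructor
  · intro h
    have h0 : algebraMap (R l) (K l) r ≠ 0 := fun h0 => h (Or.inl h0)
    have h1 := (ordGe_RL P.1.1 P.1.2 P.2 r).le h0
    refine ⟨h0, ?_⟩
    by_contra h2
    exact h (Or.inr (Int.add_one_le_iff.2 (lt_of_le_of_ne h1 (Ne.symm h2))))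
  · rintro ⟨h0, h1⟩ h2
    exact absurd ((h2.le h0).trans_eq h1) (by norm_num)

/-- `(y + b) / (x - a)` -/
noncomputable def gK (a b : F) : K l :=
  (yK l + algebraMap F (K l) b) / (xK l - algebraMap F (K l) a)

theorem xa_ne (a : F) : xK l - algebraMap F (K l) a ≠ 0 := by
  intro h
  exact xK_transc (l := l) (by
    rw [sub_eq_zero.1 h]
    exact isAlgebraic_algebraMap a)

theorem yb_ne (b : F) : yK l + algebraMap F (K l) b ≠ 0 := by
  intro h
  have h1 : yK l = algebraMap F (K l) (-b) := by
    rw [map_neg]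
    linear_combination h
  have h2 := ord_const (Place.inf : Place l) (-b)
  have h3 := ord_y_inf (l := l)
  rw [h1] at h3
  exact absurd (h2.symm.trans h3) (by norm_num)

theorem gK_ne (a b : F) : gK (l := l) a b ≠ 0 := div_ne_zero (yb_ne b) (xa_ne a)

theorem xK_ne : xK l ≠ 0 := xK_ne_zero

theorem yK_ne : yK l ≠ 0 := by
  intro h
  have h3 := ord_y_inf (l := l)
  rw [h, ord_zero] at h3
  norm_num at h3

theorem gK_inf (a b : F) : ord (Place.inf : Place l) (gK a b) = -1 := by
  have h1 : ord (Place.inf : Place l) (yK l + algebraMap F (K l) b) = -3 := by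
    have h := ord_add_eq (Place.inf : Place l) (f := yK l) (g := algebraMap F (K l) b) yK_ne
      (by
        rw [ord_y_inf]
        exact (OrdGe.const _ b).mono (by norm_num))
    rw [h.2, ord_y_inf]
  have h2 : ord (Place.inf : Place l) (xK l - algebraMap F (K l) a) = -2 := by
    have h := ord_add_eq (Place.inf : Place l) (f := xK l) (g := -algebraMap F (K l) a) xK_ne
      (by
        rw [ord_x_inf]
        exact ((OrdGe.const _ a).neg).mono (by norm_num))
    rw [sub_eq_add_neg, h.2, ord_x_inf]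
  rw [gK, ord_div _ (yb_ne b) (xa_ne a), h1, h2]
  norm_num

theorem ord_yb_ne (a b : F) (h : b ^ 2 = a * (a - 1) * (a - l)) (c : F) (hc : b + c ≠ 0) :
    ord (Place.pt a b h) (yK l + algebraMap F (K l) c) = 0 := by
  have h1 := (ev_ne_iff (l := l) ⟨(a, b), h⟩ (EllFF.yR l + algebraMap F (R l) c)).1 (by
    rw [ev_evR, map_add, evR_y, AlgHom.commutes]
    exact hc)
  have h2 := h1.2
  rw [map_add, ← IsScalarTower.algebraMap_apply F (R l) (K l)] at h2
  exact h2

theorem ord_yb_ge (a b : F) (h : b ^ 2 = a * (a - 1) * (a - l)) (c : F) (hc : b + c = 0) :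
    1 ≤ ord (Place.pt a b h) (yK l + algebraMap F (K l) c) := by
  have h1 := (ordGe_one_iff a b h (EllFF.yR l + algebraMap F (R l) c)).2 (by
    rw [map_add, evR_y, AlgHom.commutes]
    exact hc)
  rw [map_add, ← IsScalarTower.algebraMap_apply F (R l) (K l)] at h1
  exact h1.le (yb_ne c)

theorem gK_pole (a b : F) (h : b ^ 2 = a * (a - 1) * (a - l)) :
    ord (Place.pt a b h) (gK a b) = -1 := by
  rw [gK, ord_div _ (yb_ne b) (xa_ne a)]
  by_cases hb : b = 0
  · have h1 : yK l + algebraMap F (K l) b = yK l := by rw [hb, map_zero, add_zero]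
    rw [h1, ord_y_zero a b h hb, ord_xa_two a b h hb]
    norm_num
  · rw [ord_yb_ne a b h b (by
      rw [← two_mul]
      exact mul_ne_zero two_ne_zero hb), ord_xa_one a b h hb]
    norm_num

theorem gK_reg (a b : F) (h : b ^ 2 = a * (a - 1) * (a - l)) (a' b' : F)
    (h' : b' ^ 2 = a' * (a' - 1) * (a' - l)) (hne : (a, b) ≠ (a', b')) :
    0 ≤ ord (Place.pt a' b' h') (gK a b) := by
  rw [gK, ord_div _ (yb_ne b) (xa_ne a)]
  by_cases ha : a' = a
  · subst ha
    have hb : b' ≠ b := fun hb => hne (by rw [hb])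
    have h1 : (b' - b) * (b' + b) = 0 := by linear_combination h' - h
    have h2 : b' + b = 0 := (mul_eq_zero.1 h1).resolve_left (sub_ne_zero.2 hb)
    have hb0 : b' ≠ 0 := by
      intro h0
      rw [h0, zero_add] at h2
      exact hb (by rw [h0, h2])
    rw [ord_xa_one a' b' h' hb0]
    have h3 := ord_yb_ge a' b' h' b h2
    omega
  · rw [ord_xa_ne a a' b' h' ha, sub_zero]
    by_cases hb : b' + b = 0
    · have h3 := ord_yb_ge a' b' h' b hb
      omega
    · rw [ord_yb_ne a' b' h' b hb]

/-- The coordinates as functions. -/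
noncomputable def toK (v : Fin 3 → R l) : Fin 3 → K l := fun i => algebraMap (R l) (K l) (v i)

theorem toK_ne {s : Sec l} {v : Fin 3 → R l} {u : R l} (h : IsRep l s v u) : toK v ≠ 0 := by
  obtain ⟨p, -, h1, -⟩ := h
  intro h0
  exact p.2.1 (h1.trans h0)

theorem rep_sq {s : Sec l} {v : Fin 3 → R l} {u : R l} (h : IsRep l s v u) :
    algebraMap (R l) (K l) u ^ 2 = xK l * quart (toK v) := by
  obtain ⟨p, -, h1, h2⟩ := h
  have h3 : xK l * p.1.2 ^ 2 = quart (toK v) := by
    have h4 := p.2.2
    rw [h1] at h4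
    exact h4
  have h5 : algebraMap (R l) (K l) u = xK l * p.1.2 := h2.symm
  rw [h5, ← h3]
  ring

theorem mord_nonneg {v : Fin 3 → R l} (h : toK v ≠ 0) {P : Place l} (hP : P ≠ Place.inf) :
    0 ≤ mord P (toK v) := by
  rw [le_mord_iff P h]
  intro i
  cases P with
  | inf => exact absurd rfl hP
  | pt a b hab => exact ordGe_RL a b hab (v i)

theorem ordGe_inf_iff (r : R l) (n : ℕ) :
    OrdGe (Place.inf : Place l) (-(n : ℤ)) (algebraMap (R l) (K l) r) ↔ pole l r ≤ n := by
  by_cases hr : r = 0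
  · rw [hr, map_zero, pole, Algebra.norm_zero, Polynomial.natDegree_zero]
    exact ⟨fun _ => Nat.zero_le _, fun _ => Or.inl rfl⟩
  · have h1 : algebraMap (R l) (K l) r ≠ 0 :=
      (map_ne_zero_iff _ (IsFractionRing.injective (R l) (K l))).2 hr
    have h2 := ord_inf_RL hr
    constructor
    · intro h
      have h3 := h.le h1
      rw [h2] at h3
      have h4 : (pole l r : ℤ) ≤ n := by
        rw [pole]
        linarith
      exact_mod_cast h4
    · intro h
      right
      rw [h2]
      have h4 : (pole l r : ℤ) ≤ n := by exact_mod_cast h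
      rw [pole] at h4
      linarith

theorem mord_inf_iff {v : Fin 3 → R l} (h : toK v ≠ 0) (n : ℕ) :
    -(n : ℤ) ≤ mord (Place.inf : Place l) (toK v) ↔ ∀ i, pole l (v i) ≤ n := by
  rw [le_mord_iff _ h]
  exact forall_congr' fun i => ordGe_inf_iff (v i) n

theorem pole_u {s : Sec l} {v : Fin 3 → R l} {u : R l} (h : IsRep l s v u) {n : ℕ}
    (hn : ∀ i, pole l (v i) ≤ n) : pole l u ≤ 2 * n + 1 := by
  rw [← ordGe_inf_iff]
  by_cases hu : algebraMap (R l) (K l) u = 0
  · exact Or.inl hu
  right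
  have h1 : ∀ i, OrdGe (Place.inf : Place l) (-(n : ℤ)) (toK v i) := fun i =>
    (ordGe_inf_iff (v i) n).2 (hn i)
  have h2 : ∀ i, OrdGe (Place.inf : Place l) (-(4 * n : ℤ)) (toK v i ^ 4) := fun i => by
    have h3 := (((h1 i).mul (h1 i)).mul (h1 i)).mul (h1 i)
    have h4 : toK v i ^ 4 = toK v i * toK v i * toK v i * toK v i := by ring
    rw [h4]
    exact h3.mono (by linarith)
  have h3 : OrdGe (Place.inf : Place l) (-(4 * n : ℤ)) (quart (toK v)) :=
    ((h2 0).add (h2 1)).add (h2 2)
  have h4 : OrdGe (Place.inf : Place l) (-2) (xK l) := Or.inr ord_x_inf.ge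
  have h5 := h4.mul h3
  rw [← rep_sq h] at h5
  have h6 := h5.le (pow_ne_zero 2 hu)
  rw [ord_pow] at h6
  push_cast at h6 ⊢
  linarith

theorem mord_support {v : Fin 3 → R l} (h : toK v ≠ 0) :
    (Function.support fun P : Place l => mord P (toK v)).Finite := by
  obtain ⟨i, hi⟩ := Function.ne_iff.1 h
  refine ((ord_support hi).union (Set.finite_singleton Place.inf)).subset fun P hP => ?_
  by_cases hP' : P = Place.inf
  · exact Or.inr hP'
  left
  have h1 := mord_nonneg h hP'
  have h2 := (mord_ordGe P h i).le hi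
  have h3 : mord P (toK v) ≠ 0 := hP
  intro h4
  have h5 : ord P (toK v i) = 0 := h4
  omega

/-- Nonvanishing at a point. -/
theorem ev_of_mord {v : Fin 3 → R l} (h : toK v ≠ 0) (P : Pt l)
    (hP : mord (Place.pt P.1.1 P.1.2 P.2) (toK v) = 0) : ∃ i, ev l P (v i) ≠ 0 := by
  obtain ⟨i, h1, h2⟩ := mord_attained (Place.pt P.1.1 P.1.2 P.2) h
  exact ⟨i, (ev_ne_iff P (v i)).2 ⟨h1, h2.trans hP⟩⟩

theorem mord_cases {v : Fin 3 → R l} (h : toK v ≠ 0) {d : ℕ}
    (hd : ∑ᶠ P : Place l, mord P (toK v) = -(d : ℤ)) (hp : ∀ i, pole l (v i) ≤ d + 1) :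
    (∀ P : Place l, P ≠ Place.inf → mord P (toK v) = 0) ∨
      ∃ Q : Place l, Q ≠ Place.inf ∧ mord Q (toK v) = 1 ∧
        ∀ P : Place l, P ≠ Place.inf → P ≠ Q → mord P (toK v) = 0 := by
  classical
  have hinf : -((d + 1 : ℕ) : ℤ) ≤ mord (Place.inf : Place l) (toK v) := (mord_inf_iff h _).2 hp
  have hS : ∀ S : Finset (Place l), Place.inf ∉ S → ∑ P ∈ S, mord P (toK v) ≤ 1 := by
    intro S hS
    let T : Finset (Place l) := (mord_support h).toFinset ∪ insert Place.inf S
    have hT : Place.inf ∈ T := Finset.mem_union_right _ (Finset.mem_insert_self _ _)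
    have h1 : ∑ᶠ P : Place l, mord P (toK v) = ∑ P ∈ T, mord P (toK v) := by
      apply finsum_eq_sum_of_support_subset
      intro P hP
      exact Finset.mem_coe.2 (Finset.mem_union_left _ ((Set.Finite.mem_toFinset _).2 hP))
    rw [h1, ← Finset.add_sum_erase T _ hT] at hd
    have h2 : ∑ P ∈ S, mord P (toK v) ≤ ∑ P ∈ T.erase Place.inf, mord P (toK v) := by
      apply Finset.sum_le_sum_of_subset_of_nonneg
      · intro P hP
        exact Finset.mem_erase.2 ⟨fun h0 => hS (h0 ▸ hP),
          Finset.mem_union_right _ (Finset.mem_insert_of_mem hP)⟩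
      · intro P hP _
        exact mord_nonneg h (Finset.ne_of_mem_erase hP)
    push_cast at hinf
    linarith
  by_cases hall : ∀ P : Place l, P ≠ Place.inf → mord P (toK v) = 0
  · exact Or.inl hall
  right
  push Not at hall
  obtain ⟨Q, hQ, hQ0⟩ := hall
  have h1 := mord_nonneg h hQ
  have h2 := hS {Q} (by simpa using hQ.symm)
  rw [Finset.sum_singleton] at h2
  refine ⟨Q, hQ, by omega, fun P hP hPQ => ?_⟩
  have h3 := hS {P, Q} (by
    rw [Finset.mem_insert, Finset.mem_singleton, not_or]
    exact ⟨hP.symm, hQ.symm⟩)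
  rw [Finset.sum_pair hPQ] at h3
  have h4 := mord_nonneg h hP
  omega

/-- Two representatives of bounded degree without common zero. -/
theorem exists_two_reps {d : ℕ} {s : Sec l} (hs : HasHeight l s d) :
    ∃ (v : Fin 2 → Fin 3 → R l) (u : Fin 2 → R l), (∀ e, IsRep l s (v e) (u e)) ∧
      (∀ e i, pole l (v e i) ≤ d + 2) ∧ (∀ e, pole l (u e) ≤ 2 * d + 5) ∧
      ∀ P : Pt l, ∃ e i, ev l P (v e i) ≠ 0 := by
  obtain ⟨v, u, hr, hp⟩ := hs.1
  have hp1 : ∀ i, pole l (v i) ≤ d + 1 := by
    rcases hp with hp | ⟨hp, -⟩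
    · exact fun i => (hp i).trans (Nat.le_succ d)
    · exact hp
  have h0 := toK_ne hr
  have hd : ∑ᶠ P : Place l, mord P (toK v) = -(d : ℤ) := (height_iff_rep hr d).1 hs
  have hu1 : pole l u ≤ 2 * d + 5 := (pole_u hr hp1).trans (by omega)
  rcases mord_cases h0 hd hp1 with h | ⟨Q, hQ, hQ1, h⟩
  · refine ⟨fun _ => v, fun _ => u, fun _ => hr, fun _ i => (hp1 i).trans (by omega),
      fun _ => hu1, fun P => ⟨0, ev_of_mord h0 P (h _ ?_)⟩⟩
    intro h1
    cases h1
  · cases Q with
    | inf => exact absurd rfl hQ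
    | pt a b hab =>
      have hg := gK_ne (l := l) a b
      have hg0 : gK (l := l) a b • toK v ≠ 0 := smul_ne_zero hg h0
      have hm : ∀ P : Place l, mord P (gK (l := l) a b • toK v) =
          ord P (gK (l := l) a b) + mord P (toK v) :=
        fun P => mord_smul P h0 hg
      have hm1 : ∀ P : Place l, P ≠ Place.inf → 0 ≤ mord P (gK (l := l) a b • toK v) := by
        intro P hP
        rw [hm]
        by_cases hPQ : P = Place.pt a b hab
        · rw [hPQ, gK_pole, hQ1]
          norm_num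
        · rw [h P hP hPQ, add_zero]
          cases P with
          | inf => exact absurd rfl hP
          | pt a' b' hab' =>
            refine gK_reg a b hab a' b' hab' fun h2 => hPQ ?_
            cases h2
            rfl
      have hv : ∀ i, ∃ r : R l, algebraMap (R l) (K l) r = (gK (l := l) a b • toK v) i := by
        intro i
        refine (mem_RL_iff _).2 fun P hP => ?_
        exact (mord_ordGe P hg0 i).mono (hm1 P hP)
      choose v' hv' using hv
      have hw : gK a b ^ 2 * algebraMap (R l) (K l) u ∈ (algebraMap (R l) (K l)).range := by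
        have h1 : (gK a b ^ 2 * algebraMap (R l) (K l) u) ^ 2 =
            algebraMap (R l) (K l) (Pool.Agent.Lib.MP_8ae0c1_ag.xR l * quart v') := by
          have h3 := rep_sq hr
          have h4 : algebraMap (R l) (K l) (Pool.Agent.Lib.MP_8ae0c1_ag.xR l) = xK l := rfl
          simp only [quart, Pi.smul_apply, smul_eq_mul] at h3 hv' ⊢
          simp only [map_mul, map_add, map_pow, hv', h4]
          linear_combination gK a b ^ 4 * h3
        have h2 : IsIntegral (R l) (gK a b ^ 2 * algebraMap (R l) (K l) u) := by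
          refine IsIntegral.of_pow two_pos ?_
          rw [h1]
          exact isIntegral_algebraMap
        exact IsIntegrallyClosed.isIntegral_iff.1 h2
      obtain ⟨u', hu'⟩ := hw
      have hr' : IsRep l s v' u' := isRep_smulK hr hg (fun i => hv' i) hu'
      have hvK : toK v' = gK (l := l) a b • toK v := funext hv'
      have h0' : toK v' ≠ 0 := toK_ne hr'
      have hp' : ∀ i, pole l (v' i) ≤ d + 2 := by
        rw [← mord_inf_iff h0', hvK, hm, gK_inf]
        have h5 := (mord_inf_iff h0 (d + 1)).2 hp1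
        push_cast at h5 ⊢
        linarith
      refine ⟨![v, v'], ![u, u'], fun e => ?_, fun e i => ?_, fun e => ?_, fun P => ?_⟩
      · fin_cases e
        · exact hr
        · exact hr'
      · fin_cases e
        · exact (hp1 i).trans (by omega)
        · exact hp' i
      · fin_cases e
        · exact hu1
        · exact (pole_u hr' hp').trans (by omega)
      · by_cases hPQ : Place.pt P.1.1 P.1.2 P.2 = Place.pt a b hab
        · refine ⟨1, ev_of_mord h0' P ?_⟩
          rw [hvK, hm, hPQ, gK_pole, hQ1]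
          norm_num
        · refine ⟨0, ev_of_mord h0 P (h _ ?_ hPQ)⟩
          intro h1
          cases h1

end Pool.Agent.Lib.MP_8ae0c1_agH
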