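import Pool.Agent.Lib.MP_8ae0c1_agH.Germ
import Pool.Agent.Lib.MP_8ae0c1_agH.Reps
import Pool.Agent.Lib.MP_8ae0c1_agH.Coord

/-!
# Functions over the ultrapower
-/

set_option autoImplicit false
set_option linter.unusedSectionVars false

namespace Pool.Agent.Lib.MP_8ae0c1_agH

open Pool.Agent.Lib.MP_8ae0c1_ag EllFF Filter

variable {S : Type} (U : Ultrafilter S) {F : Type} [Field F] [IsAlgClosed F] [CharZero F]
  {l : F} [Leg l]

theorem cst_inj {a b : F} (h : cst U F a = cst U F b) : a = b := (cst U F).injective h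

instance leg_cst : Leg (cst U F l) where
  ne0 := by
    rw [Ne, map_eq_zero]
    exact Leg.ne0
  ne1 := by
    intro h
    rw [← map_one (cst U F)] at h
    exact Leg.ne1 (l := l) (cst_inj U h)

/-- The class of a family of points. -/
noncomputable def clsPt (Q : S → Pt l) : Pt (cst U F l) :=
  ⟨(cls U F fun s => (Q s).1.1, cls U F fun s => (Q s).1.2), by
    show cls U F _ ^ 2 = cls U F _ * (cls U F _ - 1) * (cls U F _ - cls U F fun _ => l)
    rw [← map_one (cls U F), ← map_sub, ← map_sub, ← map_mul, ← map_mul, ← map_pow]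
    congr 1
    funext s
    exact (Q s).2⟩

theorem clsPt_surj : Function.Surjective (clsPt U (l := l)) := by
  intro P
  obtain ⟨a, ha⟩ := cls_surjective U P.1.1
  obtain ⟨b, hb⟩ := cls_surjective U P.1.2
  have h1 := P.2
  rw [← ha, ← hb] at h1
  have h2 : cls U F (b ^ 2) = cls U F (a * (a - 1) * (a - fun _ => l)) := by
    rw [map_pow, map_mul, map_mul, map_sub, map_sub, map_one]
    exact h1
  rw [cls_eq_iff] at h2
  classical
  have h3 : ∀ s, ∃ Q : Pt l, b s ^ 2 = a s * (a s - 1) * (a s - l) → Q.1 = (a s, b s) := by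
    intro s
    by_cases h : b s ^ 2 = a s * (a s - 1) * (a s - l)
    · exact ⟨⟨(a s, b s), h⟩, fun _ => rfl⟩
    · exact ⟨⟨(0, 0), by ring⟩, fun h' => absurd h' h⟩
  choose Q hQ using h3
  refine ⟨Q, ?_⟩
  apply Subtype.ext
  apply Prod.ext
  · rw [← ha]
    show cls U F _ = cls U F _
    rw [cls_eq_iff]
    exact h2.mono fun s hs => congrArg Prod.fst (hQ s hs)
  · rw [← hb]
    show cls U F _ = cls U F _
    rw [cls_eq_iff]
    exact h2.mono fun s hs => congrArg Prod.snd (hQ s hs)

/-- `r` is the class of the family `f` of functions. -/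
def Tr (f : S → R l) (r : R (cst U F l)) : Prop :=
  ∀ Q : S → Pt l, ev (cst U F l) (clsPt U Q) r = cls U F fun s => ev l (Q s) (f s)

variable {U}

theorem Tr.congr {f g : S → R l} {r : R (cst U F l)} (h : Tr U f r)
    (hfg : ∀ᶠ s in (U : Filter S), f s = g s) : Tr U g r := by
  intro Q
  rw [h Q, cls_eq_iff]
  exact hfg.mono fun s hs => by rw [hs]

theorem Tr.add {f g : S → R l} {r t : R (cst U F l)} (h : Tr U f r) (h' : Tr U g t) :
    Tr U (fun s => f s + g s) (r + t) := by
  intro Q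
  rw [map_add, h Q, h' Q, ← map_add]
  congr 1
  funext s
  rw [map_add]
  rfl

theorem Tr.mul {f g : S → R l} {r t : R (cst U F l)} (h : Tr U f r) (h' : Tr U g t) :
    Tr U (fun s => f s * g s) (r * t) := by
  intro Q
  rw [map_mul, h Q, h' Q, ← map_mul]
  congr 1
  funext s
  rw [map_mul]
  rfl

theorem Tr.neg {f : S → R l} {r : R (cst U F l)} (h : Tr U f r) : Tr U (fun s => -f s) (-r) := by
  intro Q
  rw [map_neg, h Q, ← map_neg]
  congr 1
  funext s
  rw [map_neg]
  rfl

theorem Tr.sub {f g : S → R l} {r t : R (cst U F l)} (h : Tr U f r) (h' : Tr U g t) :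
    Tr U (fun s => f s - g s) (r - t) := by
  intro Q
  rw [map_sub, h Q, h' Q, ← map_sub]
  congr 1
  funext s
  rw [map_sub]
  rfl

theorem Tr.pow {f : S → R l} {r : R (cst U F l)} (h : Tr U f r) (n : ℕ) :
    Tr U (fun s => f s ^ n) (r ^ n) := by
  intro Q
  rw [map_pow, h Q, ← map_pow]
  congr 1
  funext s
  rw [map_pow]
  rfl

theorem Tr.const (c : S → F) :
    Tr U (fun s => algebraMap F (R l) (c s)) (algebraMap (UPow U F) (R (cst U F l)) (cls U F c)) := by
  intro Q
  rw [ev_algebraMap]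
  congr 1
  funext s
  rw [ev_algebraMap]

theorem Tr.x : Tr U (fun _ => EllFF.xR l) (EllFF.xR (cst U F l)) := by
  intro Q
  rw [ev_evR, evR_x]
  show cls U F _ = _
  congr 1
  funext s
  rw [ev_evR, evR_x]

theorem Tr.y : Tr U (fun _ => EllFF.yR l) (EllFF.yR (cst U F l)) := by
  intro Q
  rw [ev_evR, evR_y]
  show cls U F _ = _
  congr 1
  funext s
  rw [ev_evR, evR_y]

/-- A function which vanishes at all points is zero. -/
theorem eq_zero_of_ev {r : R l} (h : ∀ P : Pt l, ev l P r = 0) : r = 0 := by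
  by_contra hr
  have h1 : Algebra.norm (Polynomial F) r ≠ 0 := norm_ne_zero hr
  apply h1
  apply Polynomial.eq_zero_of_infinite_isRoot
  refine Set.Infinite.mono (s := Set.univ) ?_ (Set.infinite_univ_iff.2 IsAlgClosed.instInfinite)
  intro a ha
  obtain ⟨b, hb⟩ := IsAlgClosed.exists_pow_nat_eq (a * (a - 1) * (a - l)) two_pos
  have h2 := h ⟨(a, b), hb⟩
  rw [ev_evR] at h2
  have h3 := congrArg (evR a b hb) (norm_eq r)
  rw [map_mul, h2, zero_mul, ← Polynomial.aeval_algHom_apply, evR_x] at h3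
  exact h3

theorem Tr.zero_iff {f : S → R l} {r : R (cst U F l)} (h : Tr U f r) :
    r = 0 ↔ ∀ᶠ s in (U : Filter S), f s = 0 := by
  constructor
  · intro hr
    by_contra hne
    rw [← Ultrafilter.eventually_not] at hne
    have h1 : ∀ s, ∃ Q : Pt l, f s ≠ 0 → ev l Q (f s) ≠ 0 := by
      intro s
      by_cases hs : f s = 0
      · exact ⟨⟨(0, 0), by ring⟩, fun h => absurd hs h⟩
      · by_contra hc
        push Not at hc
        exact hs (eq_zero_of_ev fun P => (hc P).2)
    choose Q hQ using h1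
    have h2 := h Q
    rw [hr, map_zero] at h2
    have h3 := (cls_eq_zero_iff U _).1 h2.symm
    obtain ⟨s, hs1, hs2⟩ := (hne.and h3).exists
    exact hQ s hs1 hs2
  · intro hf
    refine eq_zero_of_ev fun P => ?_
    obtain ⟨Q, rfl⟩ := clsPt_surj U P
    rw [h Q, cls_eq_zero_iff]
    exact hf.mono fun s hs => by rw [hs, map_zero]

theorem Tr.ne_zero_iff {f : S → R l} {r : R (cst U F l)} (h : Tr U f r) :
    r ≠ 0 ↔ ∀ᶠ s in (U : Filter S), f s ≠ 0 := by
  rw [Ne, h.zero_iff]
  exact Ultrafilter.eventually_not.symm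

theorem Tr.eq_iff {f g : S → R l} {r t : R (cst U F l)} (h : Tr U f r) (h' : Tr U g t) :
    r = t ↔ ∀ᶠ s in (U : Filter S), f s = g s := by
  rw [← sub_eq_zero, (h.sub h').zero_iff]
  simp only [sub_eq_zero]

end Pool.Agent.Lib.MP_8ae0c1_agH
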