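import Pool.Agent.Lib.MP_8ae0c1_agH.Tr

/-!
# Functions over the ultrapower: existence
-/

set_option autoImplicit false
set_option linter.unusedSectionVars false

namespace Pool.Agent.Lib.MP_8ae0c1_agH

open Pool.Agent.Lib.MP_8ae0c1_ag EllFF Filter

section Pole

variable {F : Type} [Field F] {l : F}

/-- The pole order of `p(x) + q(x) y`. -/
theorem pole_repr_le (p q : Polynomial F) (N : ℕ) :
    pole l (Polynomial.aeval (EllFF.xR l) p + Polynomial.aeval (EllFF.xR l) q * EllFF.yR l) ≤ N ↔
      (∀ i, N < 2 * i → p.coeff i = 0) ∧ ∀ i, N < 2 * i + 3 → q.coeff i = 0 := by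
  have h0 : (Algebra.norm (Polynomial F) (Polynomial.aeval (EllFF.xR l) p +
      Polynomial.aeval (EllFF.xR l) q * EllFF.yR l)).degree = max (2 • p.degree) (2 • q.degree + 3) := by
    have h := WeierstrassCurve.Affine.CoordinateRing.degree_norm_smul_basis (W' := WL l) p q
    rw [Algebra.smul_def, Algebra.smul_def, algebraMap_poly, algebraMap_poly, mul_one] at h
    exact h
  have h1 : pole l (Polynomial.aeval (EllFF.xR l) p + Polynomial.aeval (EllFF.xR l) q * EllFF.yR l) ≤ N ↔
      2 • p.degree ≤ (N : WithBot ℕ) ∧ 2 • q.degree + 3 ≤ (N : WithBot ℕ) := by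
    rw [← max_le_iff, ← h0, ← Polynomial.natDegree_le_iff_degree_le]
    rfl
  rw [h1]
  constructor
  · rintro ⟨hp, hq⟩
    constructor
    · intro i hi
      by_contra hne
      have h2 := Polynomial.le_degree_of_ne_zero hne
      have h3 : (2 • (i : WithBot ℕ)) ≤ (N : WithBot ℕ) := (nsmul_le_nsmul_right h2 2).trans hp
      have h4 : ((2 * i : ℕ) : WithBot ℕ) ≤ (N : WithBot ℕ) := by
        rw [Nat.cast_mul, ← nsmul_eq_mul]
        exact h3
      have h5 : 2 * i ≤ N := by exact_mod_cast h4
      omega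
    · intro i hi
      by_contra hne
      have h2 := Polynomial.le_degree_of_ne_zero hne
      have h3 : (2 • (i : WithBot ℕ)) + 3 ≤ (N : WithBot ℕ) :=
        (add_le_add_left (nsmul_le_nsmul_right h2 2) 3).trans hq
      have h4 : ((2 * i + 3 : ℕ) : WithBot ℕ) ≤ (N : WithBot ℕ) := by
        rw [Nat.cast_add, Nat.cast_mul, ← nsmul_eq_mul]
        exact h3
      have h5 : 2 * i + 3 ≤ N := by exact_mod_cast h4
      omega
  · rintro ⟨hp, hq⟩
    constructor
    · by_cases h : p = 0
      · rw [h, Polynomial.degree_zero]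
        exact bot_le
      · rw [Polynomial.degree_eq_natDegree h, nsmul_eq_mul]
        have h2 : ¬ N < 2 * p.natDegree := fun h3 => h (Polynomial.leadingCoeff_eq_zero.1 (hp _ h3))
        exact_mod_cast not_lt.1 h2
    · by_cases h : q = 0
      · rw [h, Polynomial.degree_zero]
        exact bot_le
      · rw [Polynomial.degree_eq_natDegree h, nsmul_eq_mul]
        have h2 : ¬ N < 2 * q.natDegree + 3 := fun h3 => h (Polynomial.leadingCoeff_eq_zero.1 (hq _ h3))
        exact_mod_cast not_lt.1 h2

end Pole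

variable {S : Type} {U : Ultrafilter S} {F : Type} [Field F] [IsAlgClosed F] [CharZero F]
  {l : F} [Leg l]

/-- The transfer of a polynomial in `x`. -/
theorem Tr.poly (a : ℕ → S → F) (n : ℕ) :
    Tr U (fun s => Polynomial.aeval (EllFF.xR l) (∑ i ∈ Finset.range n, Polynomial.C (a i s) * Polynomial.X ^ i))
      (Polynomial.aeval (EllFF.xR (cst U F l))
        (∑ i ∈ Finset.range n, Polynomial.C (cls U F (a i)) * Polynomial.X ^ i)) := by
  induction n with
  | zero =>
    intro Q
    simp only [Finset.range_zero, Finset.sum_empty, map_zero]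
    symm
    rw [cls_eq_zero_iff]
    exact Eventually.of_forall fun s => rfl
  | succ n ih =>
    have h1 := ih.add ((Tr.const (U := U) (l := l) (a n)).mul ((Tr.x (U := U) (l := l)).pow n))
    simp only [Finset.sum_range_succ, map_add, map_mul, map_pow, Polynomial.aeval_X, Polynomial.aeval_C]
    simp only [map_sum, map_mul, map_pow, Polynomial.aeval_X, Polynomial.aeval_C] at h1 ⊢
    exact h1

/-- The transfer of `p(x) + q(x) y`. -/
theorem Tr.repr (a b : ℕ → S → F) (n : ℕ) :
    Tr U (fun s => Polynomial.aeval (EllFF.xR l) (∑ i ∈ Finset.range n, Polynomial.C (a i s) * Polynomial.X ^ i) +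
        Polynomial.aeval (EllFF.xR l) (∑ i ∈ Finset.range n, Polynomial.C (b i s) * Polynomial.X ^ i) * EllFF.yR l)
      (Polynomial.aeval (EllFF.xR (cst U F l))
          (∑ i ∈ Finset.range n, Polynomial.C (cls U F (a i)) * Polynomial.X ^ i) +
        Polynomial.aeval (EllFF.xR (cst U F l))
          (∑ i ∈ Finset.range n, Polynomial.C (cls U F (b i)) * Polynomial.X ^ i) * EllFF.yR (cst U F l)) :=
  (Tr.poly a n).add ((Tr.poly b n).mul Tr.y)

theorem coeff_sumC {A : Type} [CommRing A] (a : ℕ → A) (n i : ℕ) :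
    (∑ k ∈ Finset.range n, Polynomial.C (a k) * Polynomial.X ^ k).coeff i = if i < n then a i else 0 := by
  rw [Polynomial.finset_sum_coeff]
  simp only [Polynomial.coeff_C_mul_X_pow, Finset.sum_ite_eq, Finset.mem_range]

theorem eq_sumC {A : Type} [CommRing A] (p : Polynomial A) (n : ℕ) (h : ∀ i, n ≤ i → p.coeff i = 0) :
    p = ∑ k ∈ Finset.range n, Polynomial.C (p.coeff k) * Polynomial.X ^ k := by
  ext i
  rw [coeff_sumC]
  split_ifs with hi
  · rfl
  · exact h i (not_lt.1 hi)

/-- Classes of functions with bounded poles. -/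
theorem exists_lift (f : S → R l) (N : ℕ) (h : ∀ᶠ s in (U : Filter S), pole l (f s) ≤ N) :
    ∃ r : R (cst U F l), Tr U f r ∧ pole (cst U F l) r ≤ N := by
  have h1 : ∀ s, ∃ p q : Polynomial F,
      f s = Polynomial.aeval (EllFF.xR l) p + Polynomial.aeval (EllFF.xR l) q * EllFF.yR l := fun s => RL_repr (f s)
  choose p q hpq using h1
  refine ⟨_, (Tr.repr (fun i s => (p s).coeff i) (fun i s => (q s).coeff i) (N + 1)).congr ?_, ?_⟩
  · refine h.mono fun s hs => ?_
    have h2 := hs
    rw [hpq s, pole_repr_le] at h2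
    rw [← eq_sumC (p s) (N + 1) fun i hi => h2.1 i (by omega),
      ← eq_sumC (q s) (N + 1) fun i hi => h2.2 i (by omega)]
    exact (hpq s).symm
  · rw [pole_repr_le]
    constructor
    · intro i hi
      rw [coeff_sumC]
      split_ifs with hi'
      · rw [cls_eq_zero_iff]
        refine h.mono fun s hs => ?_
        rw [hpq s, pole_repr_le] at hs
        exact hs.1 i hi
      · rfl
    · intro i hi
      rw [coeff_sumC]
      split_ifs with hi'
      · rw [cls_eq_zero_iff]
        refine h.mono fun s hs => ?_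
        rw [hpq s, pole_repr_le] at hs
        exact hs.2 i hi
      · rfl

/-- Representatives of functions over the ultrapower. -/
theorem exists_unlift (r : R (cst U F l)) (N : ℕ) (h : pole (cst U F l) r ≤ N) :
    ∃ f : S → R l, Tr U f r ∧ ∀ s, pole l (f s) ≤ N := by
  classical
  obtain ⟨p, q, rfl⟩ := RL_repr r
  rw [pole_repr_le] at h
  have h1 : ∀ i, ∃ a : S → F, cls U F a = p.coeff i ∧ (N < 2 * i → a = 0) := by
    intro i
    by_cases hi : N < 2 * i
    · exact ⟨0, by rw [map_zero, h.1 i hi], fun _ => rfl⟩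
    · obtain ⟨a, ha⟩ := cls_surjective U (p.coeff i)
      exact ⟨a, ha, fun h => absurd h hi⟩
  have h2 : ∀ i, ∃ b : S → F, cls U F b = q.coeff i ∧ (N < 2 * i + 3 → b = 0) := by
    intro i
    by_cases hi : N < 2 * i + 3
    · exact ⟨0, by rw [map_zero, h.2 i hi], fun _ => rfl⟩
    · obtain ⟨a, ha⟩ := cls_surjective U (q.coeff i)
      exact ⟨a, ha, fun h => absurd h hi⟩
  choose a ha ha0 using h1
  choose b hb hb0 using h2
  have h3 := Tr.repr (U := U) (l := l) a b (N + 1)
  simp only [ha, hb] at h3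
  rw [← eq_sumC p (N + 1) fun i hi => h.1 i (by omega), ← eq_sumC q (N + 1) fun i hi => h.2 i (by omega)] at h3
  refine ⟨_, h3, fun s => ?_⟩
  rw [pole_repr_le]
  constructor
  · intro i hi
    rw [coeff_sumC]
    split_ifs
    · rw [ha0 i hi]
      rfl
    · rfl
  · intro i hi
    rw [coeff_sumC]
    split_ifs
    · rw [hb0 i hi]
      rfl
    · rfl

end Pool.Agent.Lib.MP_8ae0c1_agH
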